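import Pool.Agent.H122R2.N6.FinP0

/-!
# A bound for the density from a six-vertex certificate

A `K_4^3`-free 3-graph on `n` vertices has at most `0.567 n ^ 3 / 6` edges: tangent line of the bound
for the averages of a polynomial in the codegrees (`Pool.Agent.H122R2.N6.P0.avg`).
-/

set_option autoImplicit false

open Finset

namespace Pool.Agent.U319.TI

open Pool.Agent.H122R2.N6

lemma ph_tangent (d : ℝ) :
    1068 / 1000 * d - 1 / 20 ≤ ph (149 / 250) (-87 / 500) (3 / 8) d := by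
  unfold ph
  nlinarith [sq_nonneg (d ^ 2 - 154 / 125 * d + 377 / 1000), sq_nonneg (d - 390739 / 689599)]

/-- a `K_4^3`-free 3-graph has density at most `0.567` -/
theorem p0_edges {U : Type} [Fintype U] {E : U → U → U → ℕ} (hE : Sy E) (hK : NoK4 E) :
    1000 * ∑ a, ∑ b, ∑ c, (E a b c : ℤ) ≤ 567 * (Fintype.card U : ℤ) ^ 3 := by
  rcases Nat.eq_zero_or_pos (Fintype.card U) with h0 | hn
  · haveI := Fintype.card_eq_zero_iff.mp h0
    simp
  have h := P0.avg hE hK hn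
  have hn' : (0 : ℝ) < (Fintype.card U : ℝ) := by exact_mod_cast hn
  have h1 : ∑ a, ∑ b, (1068 / 1000 * dn E a b - 1 / 20) ≤ 5 / 9 * (Fintype.card U : ℝ) ^ 2 :=
    le_trans (sum_le_sum fun a _ => sum_le_sum fun b _ => ph_tangent _) h
  have h2 : ∑ a, ∑ b, (1068 / 1000 * dn E a b - 1 / 20) =
      1068 / 1000 * ∑ a, ∑ b, dn E a b - 1 / 20 * (Fintype.card U : ℝ) ^ 2 := by
    simp only [sum_sub_distrib, ← mul_sum, sum_const, card_univ, nsmul_eq_mul]
    ring
  have h3 : ∑ a, ∑ b, dn E a b = (∑ a, ∑ b, ∑ c, (E a b c : ℝ)) / (Fintype.card U : ℝ) := by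
    unfold dn
    simp only [← sum_div]
  rw [h2, h3] at h1
  have h4 : (∑ a, ∑ b, ∑ c, (E a b c : ℝ)) / (Fintype.card U : ℝ) ≤
      567 / 1000 * (Fintype.card U : ℝ) ^ 2 := by
    have : 0 ≤ (Fintype.card U : ℝ) ^ 2 := by positivity
    linarith
  rw [div_le_iff₀ hn'] at h4
  have h5 : ((1000 * ∑ a, ∑ b, ∑ c, (E a b c : ℤ) : ℤ) : ℝ) ≤
      ((567 * (Fintype.card U : ℤ) ^ 3 : ℤ) : ℝ) := by
    push_cast
    nlinarith
  exact_mod_cast h5

end Pool.Agent.U319.TI
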