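import Pool.Agent.U319.TI.Grp

/-!
# Free actions
-/

set_option autoImplicit false

open Finset

namespace Pool.Agent.U319.TI

set_option linter.unusedSectionVars false
set_option linter.unnecessarySeqFocus false

variable {V Γ : Type} [Fintype V] [DecidableEq V] [Group Γ] [MulAction Γ V]

open scoped Classical in
/-- the permutations given by the members of `S` -/
noncomputable def perms (V : Type) {Γ : Type} [Fintype V] [DecidableEq V] [Group Γ]
    [MulAction Γ V] (S : Finset Γ) : Finset (Equiv.Perm V) :=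
  S.image fun g => MulAction.toPerm g

lemma mem_perms {S : Finset Γ} {τ : Equiv.Perm V} :
    τ ∈ perms V S ↔ ∃ g ∈ S, MulAction.toPerm g = τ := by
  unfold perms
  rw [mem_image]

lemma free_eq (hfree : ∀ (g : Γ) (x : V), g • x = x → g = 1) {g h : Γ} {x : V}
    (H : g • x = h • x) : g = h := by
  have : (h⁻¹ * g) • x = x := by rw [mul_smul, H, inv_smul_smul]
  exact (inv_mul_eq_one.1 (hfree _ _ this)).symm

lemma perms_semi (hfree : ∀ (g : Γ) (x : V), g • x = x → g = 1) {S : Finset Γ}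
    (h1 : ∀ g ∈ S, g ≠ 1 ∧ g * g = 1) (h2 : ∀ g ∈ S, ∀ h ∈ S, g * h * g ∈ S) :
    Semi (perms V S) := by
  refine ⟨?_, ?_, ?_, ?_⟩
  · intro τ hτ x
    obtain ⟨g, hg, rfl⟩ := mem_perms.1 hτ
    show g • g • x = x
    rw [smul_smul, (h1 g hg).2, one_smul]
  · intro τ hτ x
    obtain ⟨g, hg, rfl⟩ := mem_perms.1 hτ
    intro h
    exact (h1 g hg).1 (hfree g x h)
  · intro τ hτ σ hσ x h
    obtain ⟨g, hg, rfl⟩ := mem_perms.1 hτ
    obtain ⟨g', hg', rfl⟩ := mem_perms.1 hσ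
    have : g = g' := free_eq hfree (x := x) h
    rw [this]
  · intro τ hτ σ hσ
    obtain ⟨g, hg, rfl⟩ := mem_perms.1 hτ
    obtain ⟨g', hg', rfl⟩ := mem_perms.1 hσ
    refine mem_perms.2 ⟨g * g' * g, h2 g hg g' hg', ?_⟩
    ext x
    simp [MulAction.toPerm_apply, mul_smul]

lemma perms_card [Nonempty V] (hfree : ∀ (g : Γ) (x : V), g • x = x → g = 1) (S : Finset Γ) :
    (perms V S).card = S.card := by
  unfold perms
  apply card_image_of_injective
  intro g h H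
  obtain ⟨x⟩ := ‹Nonempty V›
  exact free_eq hfree (x := x) (by
    have := congrArg (fun τ : Equiv.Perm V => τ x) H
    exact this)

lemma perms_comp (hfree : ∀ (g : Γ) (x : V), g • x = x → g = 1) {S : Finset Γ} :
    ∀ τ₁ ∈ perms V S, ∀ τ₂ ∈ perms V S, ∀ τ₃ ∈ perms V S, ∀ x,
      τ₃ (τ₂ (τ₁ x)) = x → ∀ y, τ₃ (τ₂ (τ₁ y)) = y := by
  intro τ₁ m1 τ₂ m2 τ₃ m3 x h y
  obtain ⟨g1, -, rfl⟩ := mem_perms.1 m1
  obtain ⟨g2, -, rfl⟩ := mem_perms.1 m2
  obtain ⟨g3, -, rfl⟩ := mem_perms.1 m3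
  have h' : g3 • g2 • g1 • x = x := h
  rw [smul_smul, smul_smul] at h'
  have := hfree _ _ h'
  show g3 • g2 • g1 • y = y
  rw [smul_smul, smul_smul, this, one_smul]

lemma perms_aut {G : Finset (Finset V)} (hinv : ∀ (g : Γ), ∀ e ∈ G, e.image (fun x => g • x) ∈ G)
    {S : Finset Γ} (h1 : ∀ g ∈ S, g ≠ 1 ∧ g * g = 1) :
    ∀ τ ∈ perms V S, ∀ x y z, kk G (τ x) (τ y) (τ z) = kk G x y z := by
  intro τ hτ x y z
  obtain ⟨g, hg, rfl⟩ := mem_perms.1 hτ
  refine kk_aut _ (fun e he => hinv g e he) (fun x => ?_) x y z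
  show g • g • x = x
  rw [smul_smul, (h1 g hg).2, one_smul]

open scoped Classical in
/-- the involutions of a group -/
noncomputable def invs (Γ : Type) [Group Γ] [Fintype Γ] : Finset Γ :=
  univ.filter fun g => g ≠ 1 ∧ g * g = 1

lemma mem_invs [Fintype Γ] {g : Γ} : g ∈ invs Γ ↔ g ≠ 1 ∧ g * g = 1 := by
  simp [invs]

lemma invs_conj [Fintype Γ] : ∀ g ∈ invs Γ, ∀ h ∈ invs Γ, g * h * g ∈ invs Γ := by
  intro g hg h hh
  rw [mem_invs] at hg hh ⊢
  have hgi : g⁻¹ = g := inv_eq_of_mul_eq_one_left hg.2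
  constructor
  · intro H
    apply hh.1
    have : h = g⁻¹ * (g * h * g) * g⁻¹ := by group
    rw [this, H, hgi, mul_one, hg.2]
  · calc g * h * g * (g * h * g) = g * h * (g * g) * h * g := by group
      _ = g * (h * h) * g := by rw [hg.2]; group
      _ = 1 := by rw [hh.2, mul_one, hg.2]

/-- the real form of the bound for free actions -/
theorem grp_real [Fintype Γ] {G : Finset (Finset V)} (hG : Cov G)
    (hfree : ∀ (g : Γ) (x : V), g • x = x → g = 1)
    (hinv : ∀ (g : Γ), ∀ e ∈ G, e.image (fun x => g • x) ∈ G) (n i : ℝ)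
    (hn : n = Fintype.card V) (hi : i = (invs Γ).card) :
    6 * (n * (n - 1) * (n - 2)) ≤
      36 * G.card + 9 * (n * i * (n - 1 - i)) + 4 * n * (n - 1 - i) ^ 2 := by
  rcases isEmpty_or_nonempty V with hV | hV
  · have : n = 0 := by rw [hn, Fintype.card_eq_zero]; simp
    rw [this]
    have h0 : (0 : ℝ) ≤ G.card := Nat.cast_nonneg _
    linarith
  have h1 : ∀ g ∈ invs Γ, g ≠ 1 ∧ g * g = 1 := fun g hg => mem_invs.1 hg
  have h2 := free (perms_semi (V := V) hfree h1 invs_conj) (kk_trip hG) (kk_deg G)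
    (perms_aut hinv h1) (perms_comp hfree)
  rw [kk_sum hG] at h2
  unfold dd at h2
  rw [perms_card hfree, ← hn, ← hi] at h2
  linarith

/-- the real form of the bound for general families of involutions -/
theorem fam_real {G : Finset (Finset V)} (hG : Cov G) {T : Finset (Equiv.Perm V)} (hT : Semi T)
    (hinv : ∀ τ ∈ T, ∀ e ∈ G, e.image τ ∈ G) (n i : ℝ)
    (hn : n = Fintype.card V) (hi : i = T.card) :
    3 * (n * (n - 1) * (n - 2)) ≤ 36 * G.card + 2 * n * (n - 1 - i) ^ 2 := by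
  have h2 := general hT (kk_trip hG) (kk_deg G)
    (fun τ hτ x y z => kk_aut τ (hinv τ hτ) (hT.inv τ hτ) x y z)
  rw [kk_sum hG] at h2
  unfold dd at h2
  rw [← hn, ← hi] at h2
  linarith

/-- The number of edges of Turán's construction on `n` vertices: `k(k-1)(2k-1)`, `k²(2k-1)`,
`k²(2k+1)` for `n = 3k`, `3k+1`, `3k+2`. -/
def turan (n : ℕ) : ℕ :=
  if n % 3 = 0 then (n / 3) * (n / 3 - 1) * (2 * (n / 3) - 1)
  else if n % 3 = 1 then (n / 3) ^ 2 * (2 * (n / 3) - 1)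
  else (n / 3) ^ 2 * (2 * (n / 3) + 1)

/-- a real upper bound for `36 * turan n` -/
lemma turan_real (n : ℕ) (hn : 3 ≤ n) :
    36 * (turan n : ℝ) ≤ 8 / 3 * (n : ℝ) ^ 3 - 12 * (n : ℝ) ^ 2 + 16 * n - 16 / 3 := by
  unfold turan
  have h0 : n = 3 * (n / 3) + n % 3 := (Nat.div_add_mod n 3).symm
  have h3 : n % 3 < 3 := Nat.mod_lt _ (by norm_num)
  have hk : 1 ≤ n / 3 := by omega
  obtain ⟨k, hk'⟩ : ∃ k, n / 3 = k + 1 := ⟨n / 3 - 1, by omega⟩
  obtain ⟨r, hr⟩ : ∃ r, r = n % 3 := ⟨_, rfl⟩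
  rw [hk'] at h0 ⊢
  rw [← hr] at h0 h3 ⊢
  have hn' : (n : ℝ) = 3 * ((k : ℝ) + 1) + r := by rw [h0]; push_cast; ring
  rw [hn']
  have e1 : k + 1 - 1 = k := rfl
  have e2 : 2 * (k + 1) - 1 = 2 * k + 1 := by omega
  rw [e1, e2]
  have hk0 : (0 : ℝ) ≤ k := Nat.cast_nonneg _
  interval_cases r
  · simp only [if_true]
    push_cast
    nlinarith
  · norm_num
    nlinarith
  · norm_num
    nlinarith

end Pool.Agent.U319.TI
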