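import Mathlib

/-!
# Counting inequalities for `K_4^3`-free families with a semiregular family of involutions
-/

set_option autoImplicit false

open Finset

namespace Pool.Agent.U319.TI

set_option linter.unusedSectionVars false
set_option linter.unnecessarySeqFocus false

variable {V : Type} [Fintype V] [DecidableEq V]

/-- a symmetric `0`-`1`-valued function of triples without `K_4` -/
structure Trip (k : V → V → V → ℝ) : Prop where
  s12 : ∀ x y z, k x y z = k y x z
  s23 : ∀ x y z, k x y z = k x z y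
  h01 : ∀ x y z, k x y z = 0 ∨ k x y z = 1
  free : ∀ x y z w, k x y z = 0 ∨ k x y w = 0 ∨ k x z w = 0 ∨ k y z w = 0

lemma Trip.nn {k : V → V → V → ℝ} (hk : Trip k) (x y z : V) : 0 ≤ k x y z := by
  rcases hk.h01 x y z with h | h <;> rw [h] <;> norm_num

lemma Trip.le1 {k : V → V → V → ℝ} (hk : Trip k) (x y z : V) : k x y z ≤ 1 := by
  rcases hk.h01 x y z with h | h <;> rw [h] <;> norm_num

lemma aux1 {u v f : ℝ} (hu : u = 0 ∨ u = 1) (hv : v = 0 ∨ v = 1) (hf : f = 0 ∨ f = 1)
    (h2 : u ≤ f) (h3 : v ≤ f) : u + v - f ≤ u * v := by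
  rcases hu with rfl | rfl <;> rcases hv with rfl | rfl <;> rcases hf with rfl | rfl <;> linarith

lemma aux2 {a u v w f : ℝ} (ha : a = 0 ∨ a = 1) (hu : u = 0 ∨ u = 1) (hv : v = 0 ∨ v = 1)
    (hw : w = 0 ∨ w = 1) (hf : 0 ≤ f) (h2 : u ≤ f) (h3 : v ≤ f)
    (h4 : a = 0 ∨ u = 0 ∨ v = 0 ∨ w = 0) : a * u * v + a * u * w + a * v * w ≤ a * f := by
  rcases ha with rfl | rfl <;> rcases hu with rfl | rfl <;> rcases hv with rfl | rfl <;>
    rcases hw with rfl | rfl <;> norm_num at * <;> first | exact hf | linarith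

/-- the bound of de Caen for `K_4`-free triples in a regular graph -/
theorem decaen {k : V → V → V → ℝ} (hk : Trip k) {f : V → V → ℝ} {d : ℝ}
    (hf01 : ∀ x y, f x y = 0 ∨ f x y = 1)
    (hd : ∀ x, ∑ y, f x y = d) (hkf : ∀ x y z, k x y z ≤ f x y) :
    ∑ x, ∑ y, ∑ z, k x y z ≤ 2 / 3 * (Fintype.card V) * d ^ 2 := by
  have hf0 : ∀ x y, 0 ≤ f x y := fun x y => by rcases hf01 x y with h | h <;> rw [h] <;> norm_num
  obtain ⟨p, hp⟩ : ∃ p : V → V → ℝ, p = fun x y => ∑ z, k x y z := ⟨_, rfl⟩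
  obtain ⟨K, hK⟩ : ∃ K : ℝ, K = ∑ x, ∑ y, ∑ z, k x y z := ⟨_, rfl⟩
  obtain ⟨P, hP⟩ : ∃ P : ℝ, P = ∑ x, ∑ y, (p x y) ^ 2 := ⟨_, rfl⟩
  obtain ⟨A, hA⟩ : ∃ A : ℝ, A = ∑ x, ∑ y, ∑ z, ∑ w, k x y z * k x y w * k x z w := ⟨_, rfl⟩
  rw [← hK]
  have hKp : K = ∑ x, ∑ y, p x y := by rw [hK, hp]
  have hK0 : 0 ≤ K := by
    rw [hK]
    exact sum_nonneg fun x _ => sum_nonneg fun y _ => sum_nonneg fun z _ => hk.nn x y z
  -- the lower bound
  have low : 2 * P - d * K ≤ A := by
    have h1 : ∀ x y z w, k x y z * (k x y w + k x z w - f x w) ≤ k x y z * k x y w * k x z w := by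
      intro x y z w
      have h2 : k x y w ≤ f x w := by rw [hk.s23]; exact hkf x w y
      have h3 : k x z w ≤ f x w := by rw [hk.s23]; exact hkf x w z
      have h4 := hk.nn x y z
      have h5 : k x y w + k x z w - f x w ≤ k x y w * k x z w :=
        aux1 (hk.h01 x y w) (hk.h01 x z w) (hf01 x w) h2 h3
      calc _ ≤ k x y z * (k x y w * k x z w) := mul_le_mul_of_nonneg_left h5 h4
        _ = _ := by ring
    have h2 : ∑ x, ∑ y, ∑ z, ∑ w, k x y z * (k x y w + k x z w - f x w) ≤ A := by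
      rw [hA]
      exact sum_le_sum fun x _ => sum_le_sum fun y _ => sum_le_sum fun z _ =>
        sum_le_sum fun w _ => h1 x y z w
    have h3 : ∑ x, ∑ y, ∑ z, ∑ w, k x y z * (k x y w + k x z w - f x w) = 2 * P - d * K := by
      have e1 : ∀ x y z, ∑ w, k x y z * (k x y w + k x z w - f x w) =
          k x y z * p x y + k x y z * p x z - d * k x y z := by
        intro x y z
        rw [← mul_sum, sum_sub_distrib, sum_add_distrib, hd x, hp]
        ring
      have e2 : ∀ x y, ∑ z, k x y z * p x y = (p x y) ^ 2 := by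
        intro x y
        rw [← sum_mul, sq]
        congr 1
        rw [hp]
      have e3 : ∑ x, ∑ y, ∑ z, k x y z * p x z = P := by
        rw [hP]
        refine sum_congr rfl fun x _ => ?_
        rw [sum_comm]
        refine sum_congr rfl fun z _ => ?_
        rw [← e2 x z]
        refine sum_congr rfl fun y _ => ?_
        rw [hk.s23 x y z]
      have e4 : ∑ x, ∑ y, ∑ z, k x y z * p x y = P := by
        rw [hP]
        exact sum_congr rfl fun x _ => sum_congr rfl fun y _ => e2 x y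
      simp_rw [e1, sum_sub_distrib, sum_add_distrib]
      rw [e3, e4, hK]
      simp_rw [← mul_sum]
      ring
    rw [h3] at h2
    exact h2
  -- the upper bound
  have up : 3 * A ≤ d * K := by
    have a2 : ∑ x, ∑ y, ∑ z, ∑ w, k x y z * k x y w * k y z w = A := by
      rw [hA, sum_comm]
      refine sum_congr rfl fun x _ => sum_congr rfl fun y _ => sum_congr rfl fun z _ =>
        sum_congr rfl fun w _ => ?_
      rw [hk.s12 y x z, hk.s12 y x w]
    have a3 : ∑ x, ∑ y, ∑ z, ∑ w, k x y z * k x z w * k y z w = A := by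
      rw [← a2]
      refine sum_congr rfl fun x _ => ?_
      rw [sum_comm]
      refine sum_congr rfl fun y _ => sum_congr rfl fun z _ => sum_congr rfl fun w _ => ?_
      rw [hk.s23 x z y, hk.s12 z y w]
    have h1 : ∀ x y z w, k x y z * k x y w * k x z w + k x y z * k x y w * k y z w +
        k x y z * k x z w * k y z w ≤ k x y z * f x w := by
      intro x y z w
      have h2 : k x y w ≤ f x w := by rw [hk.s23]; exact hkf x w y
      have h3 : k x z w ≤ f x w := by rw [hk.s23]; exact hkf x w z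
      have h4 := hk.free x y z w
      exact aux2 (hk.h01 x y z) (hk.h01 x y w) (hk.h01 x z w) (hk.h01 y z w) (hf0 x w) h2 h3 h4
    have h2 : ∑ x, ∑ y, ∑ z, ∑ w, (k x y z * k x y w * k x z w + k x y z * k x y w * k y z w +
        k x y z * k x z w * k y z w) ≤ ∑ x, ∑ y, ∑ z, ∑ w, k x y z * f x w :=
      sum_le_sum fun x _ => sum_le_sum fun y _ => sum_le_sum fun z _ =>
        sum_le_sum fun w _ => h1 x y z w
    have h3 : ∑ x, ∑ y, ∑ z, ∑ w, k x y z * f x w = d * K := by
      simp_rw [← mul_sum, hd, ← sum_mul]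
      rw [hK]; ring
    simp_rw [sum_add_distrib] at h2
    rw [a2, a3, ← hA, h3] at h2
    linarith
  -- Cauchy-Schwarz
  have hdn : ∑ x, ∑ y, f x y = (Fintype.card V) * d := by
    simp_rw [hd]
    rw [sum_const, card_univ, nsmul_eq_mul]
  have cs : K ^ 2 ≤ (Fintype.card V) * d * P := by
    have h1 : K = ∑ q : V × V, f q.1 q.2 * p q.1 q.2 := by
      rw [hKp, Fintype.sum_prod_type]
      refine sum_congr rfl fun x _ => sum_congr rfl fun y _ => ?_
      rcases hf01 x y with h | h
      · have : p x y = 0 := by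
          rw [hp]
          refine sum_eq_zero fun z _ => le_antisymm ?_ (hk.nn x y z)
          rw [← h]; exact hkf x y z
        rw [this]; simp
      · rw [h, one_mul]
    have h2 := sum_mul_sq_le_sq_mul_sq (univ : Finset (V × V)) (fun q => f q.1 q.2)
      (fun q => p q.1 q.2)
    rw [← h1] at h2
    have h3 : ∑ q : V × V, (f q.1 q.2) ^ 2 = (Fintype.card V) * d := by
      rw [← hdn, Fintype.sum_prod_type]
      refine sum_congr rfl fun x _ => sum_congr rfl fun y _ => ?_
      rcases hf01 x y with h | h <;> rw [h] <;> norm_num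
    have h4 : ∑ q : V × V, (p q.1 q.2) ^ 2 = P := by
      rw [hP, Fintype.sum_prod_type]
    rw [h3, h4] at h2
    exact h2
  rcases hK0.eq_or_lt with h0 | h0
  · rw [← h0]; positivity
  · have hn0 : (0 : ℝ) ≤ (Fintype.card V) * d := by
      rw [← hdn]; exact sum_nonneg fun x _ => sum_nonneg fun y _ => hf0 x y
    have h1 : P ≤ 2 / 3 * d * K := by linarith
    have h2 : K ^ 2 ≤ (Fintype.card V) * d * (2 / 3 * d * K) :=
      cs.trans (mul_le_mul_of_nonneg_left h1 hn0)
    have h3 : K * K ≤ (2 / 3 * (Fintype.card V) * d ^ 2) * K := by nlinarith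
    exact le_of_mul_le_mul_right h3 h0

end Pool.Agent.U319.TI
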