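import Pool.Agent.U319.TI.Tot
import Pool.Agent.H122R2.N6.Leaf

/-!
# Four classes: the bound on two classes
-/

set_option autoImplicit false

open Finset

namespace Pool.Agent.U319.TI

set_option linter.unusedSectionVars false
set_option linter.unnecessarySeqFocus false

variable {V : Type} [Fintype V] [DecidableEq V] {T : Finset (Equiv.Perm V)}
  {k : V → V → V → ℝ}

/-- the bound for the number of the ordered edges of `K_4^3`-free 3-graphs -/
def FlagBound : Prop := ∀ (U : Type) [Fintype U] (E : U → U → U → ℕ),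
  Pool.Agent.H122R2.N6.Sy E → Pool.Agent.H122R2.N6.NoK4 E →
    1000 * ∑ a, ∑ b, ∑ c, (E a b c : ℤ) ≤ 567 * (Fintype.card U : ℤ) ^ 3

/-- the flag bound on a subset -/
theorem flag_sub (hflag : FlagBound) (hk : Trip k) (p : V → Prop) [DecidablePred p] :
    1000 * ∑ x, ∑ y, ∑ z, (if p x ∧ p y ∧ p z then k x y z else 0) ≤
      567 * ((univ.filter p).card : ℝ) ^ 3 := by
  classical
  let E : {x // p x} → {x // p x} → {x // p x} → ℕ := fun x y z => if k x y z = 1 then 1 else 0
  have hE : ∀ x y z, (E x y z : ℝ) = k x y z := by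
    intro x y z
    show ((if k x y z = 1 then 1 else 0 : ℕ) : ℝ) = k x y z
    rcases hk.h01 x y z with h | h
    · rw [if_neg (by rw [h]; norm_num), h]; simp
    · rw [if_pos h, h]; simp
  have h1 : Pool.Agent.H122R2.N6.Sy E := by
    refine ⟨?_, ?_, ?_⟩
    · intro x y z
      show (if k x y z = 1 then 1 else 0) = 0 ∨ (if k x y z = 1 then 1 else 0) = 1
      split_ifs
      · right; rfl
      · left; rfl
    · intro x y z
      show (if k y x z = 1 then 1 else 0) = (if k x y z = 1 then 1 else 0)
      rw [hk.s12 y x z]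
    · intro x y z
      show (if k x z y = 1 then 1 else 0) = (if k x y z = 1 then 1 else 0)
      rw [hk.s23 x z y]
  have h2 : Pool.Agent.H122R2.N6.NoK4 E := by
    intro x y z w
    have h := hk.free x y z w
    have key : E x y z + (E x y w + (E x z w + E y z w)) ≠ 4 := by
      intro h4
      have h5 : ((E x y z + (E x y w + (E x z w + E y z w)) : ℕ) : ℝ) = 4 := by rw [h4]; norm_num
      push_cast at h5
      rw [hE, hE, hE, hE] at h5
      have b1 := hk.le1 x y z
      have b2 := hk.le1 x y w
      have b3 := hk.le1 x z w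
      have b4 := hk.le1 y z w
      rcases h with h | h | h | h <;> linarith
    unfold Pool.Agent.H122R2.N6.k4b
    cases hb : Nat.beq (Nat.add (E x y z) (Nat.add (E x y w) (Nat.add (E x z w) (E y z w)))) 4
    · rfl
    · exact absurd (Nat.eq_of_beq_eq_true hb) key
  have h3 := hflag {x // p x} E h1 h2
  have h4 : ((1000 * ∑ a, ∑ b, ∑ c, (E a b c : ℤ) : ℤ) : ℝ) ≤
      ((567 * (Fintype.card {x // p x} : ℤ) ^ 3 : ℤ) : ℝ) := by exact_mod_cast h3
  push_cast at h4
  simp_rw [hE] at h4
  rw [Fintype.card_subtype] at h4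
  have h5 : ∑ x : {x // p x}, ∑ y : {x // p x}, ∑ z : {x // p x}, k x y z =
      ∑ x, ∑ y, ∑ z, (if p x ∧ p y ∧ p z then k x y z else 0) := by
    have key : ∀ F : V → ℝ, ∑ x : {x // p x}, F x = ∑ x, if p x then F x else 0 := by
      intro F
      rw [← sum_filter]
      exact (sum_subtype (univ.filter p) (fun x => by simp) F).symm
    rw [key (fun x => ∑ y : {x // p x}, ∑ z : {x // p x}, k x y z)]
    refine sum_congr rfl fun x _ => ?_
    rw [key (fun y => ∑ z : {x // p x}, k x y z)]
    by_cases hx : p x
    · rw [if_pos hx]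
      refine sum_congr rfl fun y _ => ?_
      rw [key (fun z => k x y z)]
      by_cases hy : p y
      · rw [if_pos hy]
        refine sum_congr rfl fun z _ => ?_
        simp [hx, hy]
      · rw [if_neg hy]
        symm
        refine sum_eq_zero fun z _ => ?_
        simp [hy]
    · rw [if_neg hx]
      symm
      refine sum_eq_zero fun y _ => sum_eq_zero fun z _ => ?_
      simp [hx]
  rw [← h5]
  exact h4

/-- the ordered triples with two vertices in `a` and one in `b` -/
noncomputable def ss (k : V → V → V → ℝ) (a b : V → ℝ) : ℝ :=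
  ∑ x, ∑ y, ∑ z, a x * a y * b z * k x y z

/-- exchanged classes -/
def opp (i j : Fin 4) : ℝ :=
  if (i = 0 ∧ j = 1) ∨ (i = 1 ∧ j = 0) ∨ (i = 2 ∧ j = 3) ∨ (i = 3 ∧ j = 2) then 1 else 0

/-- indicator of a class -/
def cl (c : V → Fin 4) (i : Fin 4) (x : V) : ℝ := if c x = i then 1 else 0

lemma cl01 (c : V → Fin 4) (i : Fin 4) (x : V) : cl c i x = 0 ∨ cl c i x = 1 := by
  unfold cl; split_ifs
  · right; rfl
  · left; rfl

/-- the ordered triples that meet both of two classes and no others -/
noncomputable def mixed (c : V → Fin 4) (i j : Fin 4) (x y z : V) : ℝ :=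
  cl c i x * cl c i y * cl c j z + cl c i x * cl c i z * cl c j y + cl c i y * cl c i z * cl c j x +
    (cl c j x * cl c j y * cl c i z + cl c j x * cl c j z * cl c i y + cl c j y * cl c j z * cl c i x)

lemma sum_mixed (hk : Trip k) (c : V → Fin 4) (i j : Fin 4) :
    ∑ x, ∑ y, ∑ z, k x y z * mixed c i j x y z =
      3 * (ss k (cl c i) (cl c j) + ss k (cl c j) (cl c i)) := by
  have h1 : ∀ a b : V → ℝ, ∑ x, ∑ y, ∑ z, a x * a z * b y * k x y z = ss k a b := by
    intro a b
    have h := swp (fun x y z => a x * a y * b z * k x y z)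
    unfold ss
    rw [← h]
    refine sum_congr rfl fun x _ => sum_congr rfl fun y _ => sum_congr rfl fun z _ => ?_
    show a x * a z * b y * k x y z = a x * a z * b y * k x z y
    rw [hk.s23 x z y]
  have h2 : ∀ a b : V → ℝ, ∑ x, ∑ y, ∑ z, a y * a z * b x * k x y z = ss k a b := by
    intro a b
    have h := cyc (fun x y z => a x * a y * b z * k x y z)
    unfold ss
    rw [← h]
    refine sum_congr rfl fun x _ => sum_congr rfl fun y _ => sum_congr rfl fun z _ => ?_
    show a y * a z * b x * k x y z = a y * a z * b x * k y z x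
    rw [hk.s23 y z x, hk.s12 y x z]
  have e : ∀ x y z, k x y z * mixed c i j x y z =
      cl c i x * cl c i y * cl c j z * k x y z + cl c i x * cl c i z * cl c j y * k x y z +
      cl c i y * cl c i z * cl c j x * k x y z + (cl c j x * cl c j y * cl c i z * k x y z +
      cl c j x * cl c j z * cl c i y * k x y z + cl c j y * cl c j z * cl c i x * k x y z) := by
    intro x y z
    unfold mixed
    ring
  simp_rw [e, sum_add_distrib]
  rw [h1, h1, h2, h2]
  unfold ss
  ring

end Pool.Agent.U319.TI
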