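import Pool.Agent.U319.TI.Ker
import Pool.Agent.U319.TI.Cross

/-!
# Across two classes: an inequality for four vertices of one class and two of the other

Let `a`, `b` be two sets of `m` vertices of a `K_4^3`-free 3-graph. There are at most
`1.393 / 2 * m ^ 3` (unordered: `ss a b + ss b a ≤ 1.393 m ^ 3`) edges with vertices in both sets.
-/

set_option autoImplicit false

open Finset

namespace Pool.Agent.U319.TI

set_option linter.unusedSectionVars false
set_option linter.unnecessarySeqFocus false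

variable {V : Type} [Fintype V] [DecidableEq V] {k : V → V → V → ℝ}

open scoped Classical in
/-- the bit of a number -/
noncomputable def bt (r : ℝ) : Bool := decide (r = 1)

lemma bt_nat {r : ℝ} (h : r = 0 ∨ r = 1) : (((bt r).toNat : ℤ) : ℝ) = r := by
  unfold bt
  rcases h with h | h <;> simp [h]

lemma bt4 {p q r s : ℝ} (h : p = 0 ∨ q = 0 ∨ r = 0 ∨ s = 0) :
    ((bt p && bt q) && (bt r && bt s)) = false := by
  have h0 : bt 0 = false := by simp [bt]
  rcases h with h | h | h | h <;> rw [h, h0] <;> simp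

lemma msum (c : ℝ) (X : V → V → ℝ) : ∑ z, ∑ w, c * X z w = c * ∑ z, ∑ w, X z w := by
  simp_rw [← mul_sum]

/-- summation over two vertices of the second class -/
lemma quad_form {b u : V → ℝ} {K : V → V → ℝ} {v : Fin 5 → V → ℝ} {m : ℝ} (hb : ∀ z, 0 ≤ b z)
    (hm : ∑ z, b z = m)
    (h : ∀ z w, 3 * ∑ r, v r z * v r w + 30000000000 * K z w ≤
      10000000 * (16716 - 1000 * (u z + u w))) :
    3000 * ∑ z, ∑ w, b z * b w * K z w ≤ 16716 * m ^ 2 - 2000 * m * ∑ z, b z * u z := by
  have h1 : ∑ z, ∑ w, b z * b w * (3 * ∑ r, v r z * v r w + 30000000000 * K z w) ≤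
      ∑ z, ∑ w, b z * b w * (10000000 * (16716 - 1000 * (u z + u w))) :=
    sum_le_sum fun z _ => sum_le_sum fun w _ =>
      mul_le_mul_of_nonneg_left (h z w) (mul_nonneg (hb z) (hb w))
  have p1 : ∑ z, ∑ w, b z * b w = m * m := by
    rw [← hm, sum_mul_sum]
  have p2 : ∑ z, ∑ w, b z * b w * u z = m * ∑ z, b z * u z := by
    rw [← hm, mul_comm, sum_mul_sum]
    exact sum_congr rfl fun z _ => sum_congr rfl fun w _ => by ring
  have p3 : ∑ z, ∑ w, b z * b w * u w = m * ∑ z, b z * u z := by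
    rw [← hm, sum_mul_sum]
    exact sum_congr rfl fun z _ => sum_congr rfl fun w _ => by ring
  have e2 : ∑ z, ∑ w, b z * b w * (10000000 * (16716 - 1000 * (u z + u w))) =
      10000000 * (16716 * m ^ 2 - 2000 * m * ∑ z, b z * u z) := by
    have e : ∀ z w, b z * b w * (10000000 * (16716 - 1000 * (u z + u w))) =
        167160000000 * (b z * b w) - 10000000000 * (b z * b w * u z) -
          10000000000 * (b z * b w * u w) := fun z w => by ring
    simp_rw [e, sum_sub_distrib]
    rw [msum _ (fun z w => b z * b w), msum _ (fun z w => b z * b w * u z),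
      msum _ (fun z w => b z * b w * u w), p1, p2, p3]
    ring
  have e3 : ∑ z, ∑ w, b z * b w * (3 * ∑ r, v r z * v r w + 30000000000 * K z w) =
      3 * ∑ r, (∑ z, b z * v r z) ^ 2 + 30000000000 * ∑ z, ∑ w, b z * b w * K z w := by
    have e : ∀ z w, b z * b w * (3 * ∑ r, v r z * v r w + 30000000000 * K z w) =
        3 * (∑ r, (b z * v r z) * (b w * v r w)) + 30000000000 * (b z * b w * K z w) := by
      intro z w
      have : ∑ r, (b z * v r z) * (b w * v r w) = b z * b w * ∑ r, v r z * v r w := by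
        rw [mul_sum]
        exact sum_congr rfl fun r _ => by ring
      rw [this]
      ring
    simp_rw [e, sum_add_distrib]
    rw [msum _ (fun z w => ∑ r, (b z * v r z) * (b w * v r w)),
      msum _ (fun z w => b z * b w * K z w)]
    congr 2
    have e' : ∀ z, ∑ w, ∑ r, b z * v r z * (b w * v r w) =
        ∑ r, ∑ w, b z * v r z * (b w * v r w) := fun z => sum_comm
    simp_rw [e']
    rw [sum_comm]
    refine sum_congr rfl fun r _ => ?_
    rw [sq, sum_mul_sum]
  rw [e2, e3] at h1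
  have h2 : 0 ≤ ∑ r, (∑ z, b z * v r z) ^ 2 := sum_nonneg fun r _ => sq_nonneg _
  linarith

/-- four vertices of the first class -/
lemma quad_four (hk : Trip k) {b : V → ℝ} {m : ℝ} (hb : ∀ x, b x = 0 ∨ b x = 1)
    (hmb : ∑ x, b x = m) (x y z w : V) :
    3000 * ((∑ s, ∑ t, b s * b t * k x s t) + (∑ s, ∑ t, b s * b t * k y s t) +
      (∑ s, ∑ t, b s * b t * k z s t) + (∑ s, ∑ t, b s * b t * k w s t)) ≤
    16716 * m ^ 2 - 2000 * m * ((∑ s, b s * k x y s) + (∑ s, b s * k x z s) +
      (∑ s, b s * k x w s) + (∑ s, b s * k y z s) + (∑ s, b s * k y w s) +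
      (∑ s, b s * k z w s)) := by
  have hb0 : ∀ s, 0 ≤ b s := fun s => by rcases hb s with h | h <;> rw [h] <;> norm_num
  let cd : V → ℕ := fun s => Ker.cd (bt (k x y s)) (bt (k x z s)) (bt (k x w s)) (bt (k y z s))
    (bt (k y w s)) (bt (k z w s))
  have h := quad_form (b := b)
    (u := fun s => k x y s + k x z s + k x w s + k y z s + k y w s + k z w s)
    (K := fun s t => k x s t + k y s t + k z s t + k w s t)
    (v := fun r s => ((Ker.V r (cd s) : ℤ) : ℝ)) hb0 hmb (by
      intro s t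
      have h1 := Ker.main (bt (k x y s)) (bt (k x z s)) (bt (k x w s)) (bt (k y z s))
        (bt (k y w s)) (bt (k z w s)) (bt (k x y t)) (bt (k x z t)) (bt (k x w t)) (bt (k y z t))
        (bt (k y w t)) (bt (k z w t)) (bt (k x s t)) (bt (k y s t)) (bt (k z s t)) (bt (k w s t))
        (bt4 (hk.free x y s t)) (bt4 (hk.free x z s t)) (bt4 (hk.free x w s t))
        (bt4 (hk.free y z s t)) (bt4 (hk.free y w s t)) (bt4 (hk.free z w s t))
      have h2 := (Int.cast_le (R := ℝ)).2 h1
      push_cast at h2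
      have e : ∀ a b c, (((bt (k a b c)).toNat : ℕ) : ℝ) = k a b c := fun a b c => by
        have := bt_nat (hk.h01 a b c)
        push_cast at this
        exact this
      simp only [e] at h2
      exact h2)
  have e1 : ∑ s, ∑ t, b s * b t * (k x s t + k y s t + k z s t + k w s t) =
      (∑ s, ∑ t, b s * b t * k x s t) + (∑ s, ∑ t, b s * b t * k y s t) +
      (∑ s, ∑ t, b s * b t * k z s t) + (∑ s, ∑ t, b s * b t * k w s t) := by
    simp only [mul_add, sum_add_distrib]
  have e2 : ∑ s, b s * (k x y s + k x z s + k x w s + k y z s + k y w s + k z w s) =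
      (∑ s, b s * k x y s) + (∑ s, b s * k x z s) +
      (∑ s, b s * k x w s) + (∑ s, b s * k y z s) + (∑ s, b s * k y w s) +
      (∑ s, b s * k z w s) := by
    simp only [mul_add, sum_add_distrib]
  rw [e1, e2] at h
  exact h

/-- summation over four vertices of the first class -/
lemma sum_four {a g : V → ℝ} {h : V → V → ℝ} {m : ℝ} (ha : ∀ x, 0 ≤ a x) (hma : ∑ x, a x = m)
    (H : ∀ x y z w, 3000 * (g x + g y + g z + g w) ≤ 16716 * m ^ 2 - 2000 * m *
      (h x y + h x z + h x w + h y z + h y w + h z w)) :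
    12000 * m ^ 3 * ((∑ x, a x * g x) + ∑ x, ∑ y, a x * a y * h x y) ≤ 16716 * m ^ 6 := by
  obtain ⟨p, hp⟩ : ∃ p : V → ℝ, ∀ x, ∑ y, a y * h x y = p x := ⟨_, fun x => rfl⟩
  obtain ⟨G, hG⟩ : ∃ G, G = ∑ x, a x * g x := ⟨_, rfl⟩
  obtain ⟨P, hP⟩ : ∃ P, P = ∑ x, a x * p x := ⟨_, rfl⟩
  have hPP : ∑ x, ∑ y, a x * a y * h x y = P := by
    rw [hP]
    refine sum_congr rfl fun x _ => ?_
    rw [← hp, mul_sum]
    exact sum_congr rfl fun y _ => by ring
  rw [hPP, ← hG]
  have s1 : ∀ x y z, 3000 * (m * (g x + g y + g z) + G) ≤ 16716 * m ^ 3 - 2000 * m *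
      (m * (h x y + h x z + h y z) + p x + p y + p z) := by
    intro x y z
    have h1 : 0 ≤ ∑ w, a w * (16716 * m ^ 2 - 2000 * m *
      (h x y + h x z + h x w + h y z + h y w + h z w) - 3000 * (g x + g y + g z + g w)) :=
      sum_nonneg fun w _ => mul_nonneg (ha w) (by linarith [H x y z w])
    have e : ∀ w, a w * (16716 * m ^ 2 - 2000 * m *
        (h x y + h x z + h x w + h y z + h y w + h z w) - 3000 * (g x + g y + g z + g w)) =
        (16716 * m ^ 2 - 2000 * m * (h x y + h x z + h y z) - 3000 * (g x + g y + g z)) * a w -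
        2000 * m * (a w * h x w) - 2000 * m * (a w * h y w) - 2000 * m * (a w * h z w) -
        3000 * (a w * g w) := fun w => by ring
    simp_rw [e, sum_sub_distrib, ← mul_sum] at h1
    rw [hma, hp, hp, hp, ← hG] at h1
    linarith
  have s2 : ∀ x y, 3000 * (m ^ 2 * (g x + g y) + 2 * m * G) ≤ 16716 * m ^ 4 - 2000 * m *
      (m ^ 2 * h x y + 2 * m * (p x + p y) + P) := by
    intro x y
    have h1 : 0 ≤ ∑ z, a z * (16716 * m ^ 3 - 2000 * m *
      (m * (h x y + h x z + h y z) + p x + p y + p z) - 3000 * (m * (g x + g y + g z) + G)) :=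
      sum_nonneg fun z _ => mul_nonneg (ha z) (by linarith [s1 x y z])
    have e : ∀ z, a z * (16716 * m ^ 3 - 2000 * m *
        (m * (h x y + h x z + h y z) + p x + p y + p z) - 3000 * (m * (g x + g y + g z) + G)) =
        (16716 * m ^ 3 - 2000 * m * (m * h x y + p x + p y) - 3000 * (m * (g x + g y) + G)) * a z -
        2000 * m ^ 2 * (a z * h x z) - 2000 * m ^ 2 * (a z * h y z) - 2000 * m * (a z * p z) -
        3000 * m * (a z * g z) := fun z => by ring
    simp_rw [e, sum_sub_distrib, ← mul_sum] at h1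
    rw [hma, hp, hp, ← hG, ← hP] at h1
    linarith
  have s3 : ∀ x, 3000 * (m ^ 3 * g x + 3 * m ^ 2 * G) ≤ 16716 * m ^ 5 - 2000 * m *
      (3 * m ^ 2 * p x + 3 * m * P) := by
    intro x
    have h1 : 0 ≤ ∑ y, a y * (16716 * m ^ 4 - 2000 * m *
      (m ^ 2 * h x y + 2 * m * (p x + p y) + P) - 3000 * (m ^ 2 * (g x + g y) + 2 * m * G)) :=
      sum_nonneg fun y _ => mul_nonneg (ha y) (by linarith [s2 x y])
    have e : ∀ y, a y * (16716 * m ^ 4 - 2000 * m *
        (m ^ 2 * h x y + 2 * m * (p x + p y) + P) - 3000 * (m ^ 2 * (g x + g y) + 2 * m * G)) =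
        (16716 * m ^ 4 - 2000 * m * (2 * m * p x + P) - 3000 * (m ^ 2 * g x + 2 * m * G)) * a y -
        2000 * m ^ 3 * (a y * h x y) - 4000 * m ^ 2 * (a y * p y) -
        3000 * m ^ 2 * (a y * g y) := fun y => by ring
    simp_rw [e, sum_sub_distrib, ← mul_sum] at h1
    rw [hma, hp, ← hG, ← hP] at h1
    linarith
  have h1 : 0 ≤ ∑ x, a x * (16716 * m ^ 5 - 2000 * m *
      (3 * m ^ 2 * p x + 3 * m * P) - 3000 * (m ^ 3 * g x + 3 * m ^ 2 * G)) :=
    sum_nonneg fun x _ => mul_nonneg (ha x) (by linarith [s3 x])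
  have e : ∀ x, a x * (16716 * m ^ 5 - 2000 * m *
      (3 * m ^ 2 * p x + 3 * m * P) - 3000 * (m ^ 3 * g x + 3 * m ^ 2 * G)) =
      (16716 * m ^ 5 - 6000 * m ^ 2 * P - 9000 * m ^ 2 * G) * a x -
      6000 * m ^ 3 * (a x * p x) - 3000 * m ^ 3 * (a x * g x) := fun x => by ring
  simp_rw [e, sum_sub_distrib, ← mul_sum] at h1
  rw [hma, ← hG, ← hP] at h1
  linarith

/-- across two classes -/
theorem cross2 (hk : Trip k) {a b : V → ℝ} {m : ℝ} (ha : ∀ x, a x = 0 ∨ a x = 1)
    (hb : ∀ x, b x = 0 ∨ b x = 1) (hma : ∑ x, a x = m) (hmb : ∑ x, b x = m) (hm : 0 ≤ m) :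
    ss k a b + ss k b a ≤ 1393 / 1000 * m ^ 3 := by
  have ha0 : ∀ s, 0 ≤ a s := fun s => by rcases ha s with h | h <;> rw [h] <;> norm_num
  have h := sum_four (g := fun x => ∑ s, ∑ t, b s * b t * k x s t)
    (h := fun x y => ∑ s, b s * k x y s) ha0 hma
    (fun x y z w => quad_four hk hb hmb x y z w)
  have e1 : ∑ x, a x * ∑ s, ∑ t, b s * b t * k x s t = ss k b a := by
    unfold ss
    rw [← cyc (fun x y z => b x * b y * a z * k x y z)]
    refine sum_congr rfl fun x _ => ?_
    rw [mul_sum]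
    refine sum_congr rfl fun s _ => ?_
    rw [mul_sum]
    refine sum_congr rfl fun t _ => ?_
    show a x * (b s * b t * k x s t) = b s * b t * a x * k s t x
    rw [hk.s23 s t x, hk.s12 s x t]
    ring
  have e2 : ∑ x, ∑ y, a x * a y * ∑ s, b s * k x y s = ss k a b := by
    unfold ss
    refine sum_congr rfl fun x _ => sum_congr rfl fun y _ => ?_
    rw [mul_sum]
    exact sum_congr rfl fun s _ => by ring
  rw [e1, e2] at h
  rcases hm.eq_or_lt with h0 | h0
  · have za : ∀ x, a x = 0 := by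
      intro x
      have h1 : ∑ x, a x = 0 := by rw [hma, ← h0]
      exact (sum_eq_zero_iff_of_nonneg fun x _ => ha0 x).1 h1 x (mem_univ x)
    have z1 : ss k a b = 0 := by
      unfold ss
      refine sum_eq_zero fun x _ => sum_eq_zero fun y _ => sum_eq_zero fun z _ => ?_
      rw [za x]; ring
    have z2 : ss k b a = 0 := by
      unfold ss
      refine sum_eq_zero fun x _ => sum_eq_zero fun y _ => sum_eq_zero fun z _ => ?_
      rw [za z]; ring
    rw [z1, z2, ← h0]
    norm_num
  · have h1 : 0 < m ^ 3 := by positivity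
    have h2 : 12000 * m ^ 3 * (ss k b a + ss k a b) ≤ 12000 * m ^ 3 * (1393 / 1000 * m ^ 3) := by
      refine h.trans (le_of_eq ?_)
      ring
    have h3 := le_of_mul_le_mul_left h2 (by positivity)
    linarith

end Pool.Agent.U319.TI
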