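import Pool.Agent.U319.TI.Cn

/-!
# Semiregular families of involutions
-/

set_option autoImplicit false

open Finset

namespace Pool.Agent.U319.TI

set_option linter.unusedSectionVars false
set_option linter.unnecessarySeqFocus false

variable {V : Type} [Fintype V] [DecidableEq V]

/-- a family of fixed point free involutions, no two of which agree at a point, closed under
conjugation by its members -/
structure Semi (T : Finset (Equiv.Perm V)) : Prop where
  inv : ∀ τ ∈ T, ∀ x, τ (τ x) = x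
  fix : ∀ τ ∈ T, ∀ x, τ x ≠ x
  dis : ∀ τ ∈ T, ∀ σ ∈ T, ∀ x, τ x = σ x → τ = σ
  conj : ∀ τ ∈ T, ∀ σ ∈ T, τ * σ * τ ∈ T

/-- exchanged pairs -/
noncomputable def ex (T : Finset (Equiv.Perm V)) (x y : V) : ℝ :=
  ∑ τ ∈ T, if τ x = y then 1 else 0

/-- indicator of `z ∉ {x, y}` -/
noncomputable def off (x y z : V) : ℝ := if z = x ∨ z = y then 0 else 1

variable {T : Finset (Equiv.Perm V)}

lemma ex_cases (hT : Semi T) (x y : V) :
    (ex T x y = 0 ∧ ∀ τ ∈ T, τ x ≠ y) ∨ (ex T x y = 1 ∧ ∃ τ ∈ T, τ x = y) := by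
  by_cases h : ∃ τ ∈ T, τ x = y
  · right
    obtain ⟨τ, hτ, hxy⟩ := h
    refine ⟨?_, τ, hτ, hxy⟩
    unfold ex
    rw [sum_eq_single_of_mem τ hτ, if_pos hxy]
    intro σ hσ hne
    rw [if_neg]
    intro h'
    exact hne (hT.dis σ hσ τ hτ x (h'.trans hxy.symm))
  · left
    push Not at h
    refine ⟨?_, h⟩
    unfold ex
    exact sum_eq_zero fun τ hτ => if_neg (h τ hτ)

lemma ex01 (hT : Semi T) (x y : V) : ex T x y = 0 ∨ ex T x y = 1 := by
  rcases ex_cases hT x y with h | h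
  · exact Or.inl h.1
  · exact Or.inr h.1

lemma ex_nn (x y : V) : 0 ≤ ex T x y := by
  unfold ex
  exact sum_nonneg fun τ _ => by split_ifs <;> norm_num

lemma ex_self (hT : Semi T) (x : V) : ex T x x = 0 := by
  unfold ex
  exact sum_eq_zero fun τ hτ => if_neg (hT.fix τ hτ x)

lemma ex_comm (hT : Semi T) (x y : V) : ex T x y = ex T y x := by
  unfold ex
  refine sum_congr rfl fun τ hτ => ?_
  have : τ x = y ↔ τ y = x := by
    constructor
    · rintro rfl; exact hT.inv τ hτ x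
    · rintro rfl; exact hT.inv τ hτ y
  simp only [this]

lemma ex_deg (x : V) : ∑ y, ex T x y = T.card := by
  unfold ex
  rw [sum_comm]
  simp

lemma ex_eq_one (hT : Semi T) {τ : Equiv.Perm V} (hτ : τ ∈ T) (x : V) : ex T x (τ x) = 1 := by
  rcases ex_cases hT x (τ x) with h | h
  · exact absurd rfl (h.2 τ hτ)
  · exact h.1

lemma ex_inv (hT : Semi T) {τ : Equiv.Perm V} (hτ : τ ∈ T) (x y : V) :
    ex T (τ x) (τ y) = ex T x y := by
  unfold ex
  refine sum_bij' (fun σ _ => τ * σ * τ) (fun σ _ => τ * σ * τ) (fun σ hσ => hT.conj τ hτ σ hσ)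
    (fun σ hσ => hT.conj τ hτ σ hσ) ?_ ?_ ?_
  · intro σ _
    have h : τ * τ = 1 := Equiv.ext fun z => hT.inv τ hτ z
    calc τ * (τ * σ * τ) * τ = (τ * τ) * σ * (τ * τ) := by group
      _ = σ := by rw [h]; group
  · intro σ _
    have h : τ * τ = 1 := Equiv.ext fun z => hT.inv τ hτ z
    calc τ * (τ * σ * τ) * τ = (τ * τ) * σ * (τ * τ) := by group
      _ = σ := by rw [h]; group
  · intro σ _
    have : σ (τ x) = τ y ↔ (τ * σ * τ) x = y := by
      simp only [Equiv.Perm.mul_apply]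
      constructor
      · intro h; rw [h]; exact hT.inv τ hτ y
      · intro h; rw [← h]; exact (hT.inv τ hτ _).symm
    simp only [this]

lemma ex_swap (hT : Semi T) {τ : Equiv.Perm V} (hτ : τ ∈ T) (x y : V) :
    ex T (τ x) y = ex T x (τ y) := by
  have := ex_inv hT hτ x (τ y)
  rw [hT.inv τ hτ y] at this
  exact this

/-- sums over exchanged pairs -/
lemma sum_ex (Q : V → V → V → ℝ) :
    ∑ x, ∑ y, ∑ z, ex T x y * Q x y z = ∑ τ ∈ T, ∑ x, ∑ z, Q x (τ x) z := by
  rw [sum_comm (s := T)]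
  refine sum_congr rfl fun x _ => ?_
  have h1 : ∀ y, ∑ z, ex T x y * Q x y z = ∑ τ ∈ T, if τ x = y then ∑ z, Q x y z else 0 := by
    intro y
    rw [← mul_sum]
    unfold ex
    rw [sum_mul]
    refine sum_congr rfl fun τ _ => ?_
    split_ifs <;> simp
  simp_rw [h1]
  rw [sum_comm]
  refine sum_congr rfl fun τ _ => ?_
  rw [sum_ite_eq univ (τ x)]
  simp

variable {k : V → V → V → ℝ}

lemma Trip.degen {k : V → V → V → ℝ} (hk : Trip k) (h0 : ∀ x y, k x x y = 0) :
    (∀ x y, k x y x = 0) ∧ (∀ x y, k x y y = 0) := by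
  constructor
  · intro x y
    rw [hk.s23]; exact h0 x y
  · intro x y
    rw [hk.s12, hk.s23]; exact h0 y x

/-- the basic inequality -/
lemma pair_le (hT : Semi T) (hk : Trip k) (h0 : ∀ x y, k x x y = 0)
    (haut : ∀ τ ∈ T, ∀ x y z, k (τ x) (τ y) (τ z) = k x y z)
    {τ : Equiv.Perm V} (hτ : τ ∈ T) (x z : V) :
    k x (τ x) z + k z (τ z) x ≤ off x (τ x) z := by
  obtain ⟨g1, g2⟩ := hk.degen h0
  unfold off
  split_ifs with h
  · rcases h with rfl | rfl
    · rw [g1]; simp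
    · rw [g2, hT.inv τ hτ, g2]; simp
  · have h1 := hk.free x (τ x) z (τ z)
    have h2 : k x (τ x) (τ z) = k x (τ x) z := by
      have := haut τ hτ x (τ x) z
      rw [hT.inv τ hτ] at this
      rw [← this, hk.s12]
    have h3 : k x z (τ z) = k z (τ z) x := by rw [hk.s12, hk.s23]
    have h4 : k (τ x) z (τ z) = k z (τ z) x := by
      have := haut τ hτ z (τ z) x
      rw [hT.inv τ hτ] at this
      rw [← this, hk.s12, hk.s23, hk.s12, hk.s12, hk.s23, hk.s12]
    rw [h2, h3, h4] at h1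
    have h5 := hk.le1 x (τ x) z
    have h6 := hk.le1 z (τ z) x
    rcases h1 with h | h | h | h <;> linarith

/-- the inequality of the exchange for a weight -/
theorem swap (hT : Semi T) (hk : Trip k) (h0 : ∀ x y, k x x y = 0)
    (haut : ∀ τ ∈ T, ∀ x y z, k (τ x) (τ y) (τ z) = k x y z) {ψ : V → V → V → ℝ}
    (hψ0 : ∀ x y z, 0 ≤ ψ x y z) (hψ : ∀ τ ∈ T, ∀ x z, ψ x (τ x) z = ψ z (τ z) x) :
    2 * ∑ x, ∑ y, ∑ z, ex T x y * (ψ x y z * k x y z) ≤
      ∑ x, ∑ y, ∑ z, ex T x y * (ψ x y z * off x y z) := by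
  rw [sum_ex (fun x y z => ψ x y z * k x y z), sum_ex (fun x y z => ψ x y z * off x y z), mul_sum]
  refine sum_le_sum fun τ hτ => ?_
  have h1 : ∑ x, ∑ z, ψ x (τ x) z * k x (τ x) z = ∑ x, ∑ z, ψ z (τ z) x * k z (τ z) x :=
    sum_comm
  rw [two_mul]
  nth_rw 2 [h1]
  rw [← sum_add_distrib]
  refine sum_le_sum fun x _ => ?_
  rw [← sum_add_distrib]
  refine sum_le_sum fun z _ => ?_
  rw [← hψ τ hτ x z, ← mul_add]
  exact mul_le_mul_of_nonneg_left (pair_le hT hk h0 haut hτ x z) (hψ0 _ _ _)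

end Pool.Agent.U319.TI
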