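import Pool.Agent.U319.TI.Tot
import Pool.Agent.H422R3.T34.Main

/-!
# Groups of automorphisms
-/

set_option autoImplicit false

open Finset

namespace Pool.Agent.U319.TI

set_option linter.unusedSectionVars false
set_option linter.unnecessarySeqFocus false

variable {V : Type} [Fintype V] [DecidableEq V]

/-- every four vertices contain an edge -/
def Cov (G : Finset (Finset V)) : Prop :=
  (∀ e ∈ G, e.card = 3) ∧ ∀ S : Finset V, S.card = 4 → ∃ e ∈ G, e ⊆ S

/-- the triples which are not edges -/
def co (G : Finset (Finset V)) : Finset (Finset V) := (univ.powersetCard 3).filter fun e => e ∉ G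

lemma mem_co {G : Finset (Finset V)} {e : Finset V} : e ∈ co G ↔ e.card = 3 ∧ e ∉ G := by
  unfold co
  rw [mem_filter, mem_powersetCard]
  simp

/-- indicator of the ordered triples of distinct vertices which are not edges -/
noncomputable def kk (G : Finset (Finset V)) (x y z : V) : ℝ :=
  if ({x, y, z} : Finset V) ∈ co G then 1 else 0

lemma kk_deg (G : Finset (Finset V)) (x y : V) : kk G x x y = 0 := by
  unfold kk
  rw [if_neg]
  rw [mem_co]
  rintro ⟨h, -⟩
  rw [insert_eq_of_mem (by simp)] at h
  have := card_le_two (a := x) (b := y)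
  omega

lemma kk_trip {G : Finset (Finset V)} (hG : Cov G) : Trip (kk G) := by
  have s12 : ∀ x y z, kk G x y z = kk G y x z := by
    intro x y z
    unfold kk
    rw [insert_comm]
  have s23 : ∀ x y z, kk G x y z = kk G x z y := by
    intro x y z
    unfold kk
    rw [show ({x, y, z} : Finset V) = {x, z, y} by rw [pair_comm]]
  have h01 : ∀ x y z, kk G x y z = 0 ∨ kk G x y z = 1 := by
    intro x y z
    unfold kk
    split_ifs
    · right; rfl
    · left; rfl
  refine ⟨s12, s23, h01, ?_⟩
  intro x y z w
  have d1 : ∀ x y, kk G x y x = 0 := fun x y => by rw [s23]; exact kk_deg G x y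
  have d2 : ∀ x y, kk G x y y = 0 := fun x y => by rw [s12, s23]; exact kk_deg G y x
  by_cases e1 : x = y
  · left; rw [e1]; exact kk_deg G y z
  by_cases e2 : x = z
  · left; rw [e2]; exact d1 z y
  by_cases e3 : y = z
  · left; rw [e3]; exact d2 x z
  by_cases e4 : x = w
  · right; left; rw [e4]; exact d1 w y
  by_cases e5 : y = w
  · right; left; rw [e5]; exact d2 x w
  by_cases e6 : z = w
  · right; right; left; rw [e6]; exact d2 x w
  have hS : ({x, y, z, w} : Finset V).card = 4 := by
    rw [card_insert_of_notMem, card_insert_of_notMem, card_insert_of_notMem, card_singleton] <;>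
      simp [e1, e2, e3, e4, e5, e6]
  obtain ⟨e, he, hsub⟩ := hG.2 _ hS
  have hc := hG.1 e he
  have key : ∀ a b c : V, ({a, b, c} : Finset V) = e → kk G a b c = 0 := by
    intro a b c h
    unfold kk
    rw [if_neg]
    rw [mem_co, h]
    exact fun h => h.2 he
  have hex : ∃ a ∈ ({x, y, z, w} : Finset V), e = ({x, y, z, w} : Finset V).erase a := by
    have h1 : (({x, y, z, w} : Finset V) \ e).card = 1 := by
      rw [card_sdiff_of_subset hsub, hS, hc]
    obtain ⟨a, ha⟩ := card_eq_one.1 h1
    have ha' : a ∈ ({x, y, z, w} : Finset V) \ e := by rw [ha]; simp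
    refine ⟨a, (mem_sdiff.1 ha').1, ?_⟩
    rw [erase_eq, ← ha, Finset.sdiff_sdiff_eq_self hsub]
  obtain ⟨a, ha, he'⟩ := hex
  simp only [mem_insert, mem_singleton] at ha
  rcases ha with rfl | rfl | rfl | rfl
  · right; right; right
    apply key
    rw [he']
    ext t
    simp only [mem_insert, mem_singleton, mem_erase]
    constructor
    · rintro (rfl | rfl | rfl)
      · exact ⟨fun h => e1 h.symm, by tauto⟩
      · exact ⟨fun h => e2 h.symm, by tauto⟩
      · exact ⟨fun h => e4 h.symm, by tauto⟩
    · rintro ⟨h, h' | h' | h' | h'⟩ <;> tauto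
  · right; right; left
    apply key
    rw [he']
    ext t
    simp only [mem_insert, mem_singleton, mem_erase]
    constructor
    · rintro (rfl | rfl | rfl)
      · exact ⟨e1, by tauto⟩
      · exact ⟨fun h => e3 h.symm, by tauto⟩
      · exact ⟨fun h => e5 h.symm, by tauto⟩
    · rintro ⟨h, h' | h' | h' | h'⟩ <;> tauto
  · right; left
    apply key
    rw [he']
    ext t
    simp only [mem_insert, mem_singleton, mem_erase]
    constructor
    · rintro (rfl | rfl | rfl)
      · exact ⟨e2, by tauto⟩
      · exact ⟨e3, by tauto⟩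
      · exact ⟨fun h => e6 h.symm, by tauto⟩
    · rintro ⟨h, h' | h' | h' | h'⟩ <;> tauto
  · left
    apply key
    rw [he']
    ext t
    simp only [mem_insert, mem_singleton, mem_erase]
    constructor
    · rintro (rfl | rfl | rfl)
      · exact ⟨e4, by tauto⟩
      · exact ⟨e5, by tauto⟩
      · exact ⟨e6, by tauto⟩
    · rintro ⟨h, h' | h' | h' | h'⟩ <;> tauto

lemma kk_sum {G : Finset (Finset V)} (hG : Cov G) :
    ∑ x, ∑ y, ∑ z, kk G x y z =
      (Fintype.card V : ℝ) * (Fintype.card V - 1) * (Fintype.card V - 2) - 6 * G.card := by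
  have h1 := Pool.Agent.H422R3.T34.six_card (co G) (fun e he => (mem_co.1 he).1)
  have h2 : ∑ x, ∑ y, ∑ z, kk G x y z =
      ((∑ x, ∑ y, ∑ z, Pool.Agent.H422R3.T34.ind (co G) x y z : ℕ) : ℝ) := by
    push_cast
    refine sum_congr rfl fun x _ => sum_congr rfl fun y _ => sum_congr rfl fun z _ => ?_
    unfold kk Pool.Agent.H422R3.T34.ind
    split_ifs <;> simp
  rw [h2, h1]
  have h3 : (co G).card + G.card = (Fintype.card V).choose 3 := by
    have e1 : (univ.powersetCard 3).filter (fun e => e ∈ G) = G := by
      ext e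
      rw [mem_filter, mem_powersetCard]
      constructor
      · exact fun h => h.2
      · exact fun h => ⟨⟨subset_univ _, hG.1 e h⟩, h⟩
    have e2 := card_filter_add_card_filter_not (s := (univ : Finset V).powersetCard 3)
      (fun e => e ∈ G)
    rw [e1, card_powersetCard, card_univ] at e2
    rw [← e2, add_comm]
    rfl
  have h4 : ((Fintype.card V).choose 3 : ℝ) * 6 =
      (Fintype.card V : ℝ) * (Fintype.card V - 1) * (Fintype.card V - 2) := by
    generalize Fintype.card V = n
    rcases n with _ | _ | _ | m
    · norm_num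
    · norm_num
    · norm_num
    · have h := Nat.descFactorial_eq_factorial_mul_choose (m + 3) 3
      have h5 : (m + 3).choose 3 * 6 = (m + 3) * (m + 2) * (m + 1) := by
        simp only [Nat.descFactorial_succ, Nat.descFactorial_zero, Nat.factorial] at h
        have e1 : m + 3 - 0 = m + 3 := rfl
        have e2 : m + 3 - 1 = m + 2 := rfl
        have e3 : m + 3 - 2 = m + 1 := rfl
        rw [e1, e2, e3] at h
        linarith
      have h6 : (((m + 3).choose 3 * 6 : ℕ) : ℝ) = (((m + 3) * (m + 2) * (m + 1) : ℕ) : ℝ) := by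
        rw [h5]
      push_cast at h6 ⊢
      rw [show m + 1 + 1 + 1 = m + 3 from rfl]
      linarith
  have h5 : ((co G).card : ℝ) + G.card = ((Fintype.card V).choose 3 : ℝ) := by exact_mod_cast h3
  push_cast
  linarith

lemma kk_aut {G : Finset (Finset V)} (τ : Equiv.Perm V)
    (h : ∀ e ∈ G, e.image τ ∈ G) (hτ : ∀ x, τ (τ x) = x) (x y z : V) :
    kk G (τ x) (τ y) (τ z) = kk G x y z := by
  have key : ∀ x y z : V, ({τ x, τ y, τ z} : Finset V) ∈ co G ↔ ({x, y, z} : Finset V) ∈ co G := by
    intro x y z
    have e1 : ∀ a b c : V, ({a, b, c} : Finset V).image τ = {τ a, τ b, τ c} := by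
      intro a b c; simp [image_insert]
    rw [mem_co, mem_co, ← e1, card_image_of_injective _ τ.injective]
    have e2 : ({x, y, z} : Finset V).image τ ∉ G ↔ ({x, y, z} : Finset V) ∉ G := by
      constructor
      · intro h1 h2
        exact h1 (h _ h2)
      · intro h1 h2
        apply h1
        have := h _ h2
        rw [e1, e1, hτ, hτ, hτ] at this
        exact this
    rw [e2]
  unfold kk
  simp only [key x y z]

end Pool.Agent.U319.TI
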