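import Mathlib

/-!
# An inequality for pairs of graphs on four vertices

For a graph `J` on four vertices (coded by its six edges) let `e J` be the number of its edges and
`al J` its independence number. There are five integer valued functions `V_r` of `J` such that
`3 ∑_r V_r J V_r J' ≤ 10 ^ 7 (16716 - 1000 (e J + e J') - 3000 al (J ∩ J'))` for all `J`, `J'`.
-/

set_option autoImplicit false
set_option maxRecDepth 100000

namespace Pool.Agent.U319.TI.Ker

/-- code, number of edges, and the five functions -/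
def tab : List (ℕ × ℕ × ℤ × ℤ × ℤ × ℤ × ℤ) := [(0, 0, 12944, 18375, -13436, -33975, -62217),
  (1, 1, 55499, -30471, -16614, 49787, -59267),
  (2, 1, -28559, 38772, 68500, 24442, -43786),
  (3, 2, -18730, 42352, -4504, 48527, -1554),
  (4, 1, 72868, 2837, 10941, -56642, 21880),
  (5, 2, 20894, 1241, -44198, 19449, 18998),
  (6, 2, -13133, 38216, -9062, 50632, -1777),
  (7, 3, 12944, 18375, -13436, -33975, -62217),
  (8, 1, 59767, 8860, 14096, -70861, 13618),
  (9, 2, 25816, -3881, -48792, 42344, 6999),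
  (10, 2, -39038, 53632, 8162, 19046, 10914),
  (11, 3, 40864, 13619, 50055, 47702, 44602),
  (12, 2, 30023, 911, -60667, -26145, 33402),
  (13, 3, 55922, 20065, -24371, -50758, -22239),
  (14, 3, 20165, 61889, -9002, -26129, 36729),
  (15, 4, 62601, 10341, 19125, -63922, 23807),
  (16, 1, -30928, 38555, 70528, 2444, -40498),
  (17, 2, -9407, -20173, -44423, 40298, -4967),
  (18, 2, -48506, 37796, -32631, 30140, 53600),
  (19, 3, -41003, 56998, -10479, 39735, -48893),
  (20, 2, -13848, 23694, -30463, -14981, 34236),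
  (21, 3, 16269, -31061, 49301, 28262, 37068),
  (22, 3, -51565, 16783, 65091, 66475, 26017),
  (23, 4, -23782, 41073, 74921, 8954, -32470),
  (24, 2, 1380, 37990, -20687, -4527, 33806),
  (25, 3, 12944, 18375, -13436, -33975, -62217),
  (26, 3, -42307, 37200, 68193, 35276, 26104),
  (27, 4, -14381, 40392, 76062, 18866, -31885),
  (28, 3, 20234, -32312, 9808, 6000, 91380),
  (29, 4, 71801, -978, 15585, -53643, 27705),
  (30, 4, -45925, 54020, 22229, 37372, 8999),
  (31, 5, 3203, 36639, -16833, 17287, 21042),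
  (32, 1, -35670, -82288, 10290, -26712, -24941),
  (33, 2, 49296, -29782, 16714, -32811, -33032),
  (34, 2, -51657, 38996, 6033, 15219, 6516),
  (35, 3, 1855, -1922, -2738, 1929, -58616),
  (36, 2, -19737, -24533, -43662, -7270, 17407),
  (37, 3, 31434, -57508, -45491, 3690, -59351),
  (38, 3, 2748, -32848, 53165, 11078, 42549),
  (39, 4, -18377, -86296, 8635, -16854, -30017),
  (40, 2, -36219, -28493, -39601, -28277, 23403),
  (41, 3, 32592, -35706, -30992, -5623, -50181),
  (42, 3, 12944, 18375, -13436, -33975, -62217),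
  (43, 4, 38723, -53819, 1262, 44183, -51911),
  (44, 3, 58368, -28054, 31921, -23696, 51636),
  (45, 4, 52856, -34320, 17388, -30020, 938),
  (46, 4, 61742, 7741, 22291, -62261, 28267),
  (47, 5, 2883, -7702, -42544, 973, 22341),
  (48, 2, -31648, -8813, -29294, 26185, -1800),
  (49, 3, 13936, -83149, 40417, 3603, -7532),
  (50, 3, -32144, -16372, 50097, 45923, -8451),
  (51, 4, -60989, 15823, 47507, 43018, -23875),
  (52, 3, 12944, 18375, -13436, -33975, -62217),
  (53, 4, 54751, -51098, -1508, 46661, -35442),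
  (54, 4, -24308, 39500, 76352, 8669, -31440),
  (55, 5, -31583, 4453, -21605, 29853, -1532),
  (56, 3, -50103, -21768, 55404, -38522, 61453),
  (57, 4, -29416, -72882, 4786, -38109, -37311),
  (58, 4, -31678, 37247, 72445, 4026, -37270),
  (59, 5, -33908, 4452, -20720, 27884, -1131),
  (60, 4, 59728, 7712, 14657, -70166, 16712),
  (61, 5, 2345, -6819, -41861, -1833, 23875),
  (62, 5, -30060, 23442, -11798, -12190, 25234),
  (63, 6, 8420, -35436, 50029, 20354, 38304)]

/-- independence number of the graph with code `u` -/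
def al (u : ℕ) : ℕ := Nat.land (Nat.shiftRight 0x2924924934934924d34934d349249b49349b4924db6db6dc (3 * u)) 7

/-- the inequality -/
def test (p q : ℕ × ℕ × ℤ × ℤ × ℤ × ℤ × ℤ) : Bool :=
  decide (3 * (p.2.2.1 * q.2.2.1 + p.2.2.2.1 * q.2.2.2.1 + p.2.2.2.2.1 * q.2.2.2.2.1 +
    p.2.2.2.2.2.1 * q.2.2.2.2.2.1 + p.2.2.2.2.2.2 * q.2.2.2.2.2.2) ≤
    10000000 * (16716 - 1000 * ((p.2.1 : ℤ) + q.2.1) - 3000 * (al (Nat.land p.1 q.1) : ℤ)))

theorem test_all : (tab.all fun p => tab.all fun q => test p q) = true := by decide +kernel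

/-- code of a graph with the edges `12, 13, 14, 23, 24, 34` -/
def cd (a b c d e f : Bool) : ℕ :=
  a.toNat + 2 * b.toNat + 4 * c.toNat + 8 * d.toNat + 16 * e.toNat + 32 * f.toNat

/-- the row of the table -/
def row (u : ℕ) : ℕ × ℕ × ℤ × ℤ × ℤ × ℤ × ℤ := tab.getD u (0, 0, 0, 0, 0, 0, 0)

theorem row_mem (a b c d e f : Bool) : row (cd a b c d e f) ∈ tab ∧
    (row (cd a b c d e f)).1 = cd a b c d e f ∧
    (row (cd a b c d e f)).2.1 = a.toNat + b.toNat + c.toNat + d.toNat + e.toNat + f.toNat := by
  revert a b c d e f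
  decide +kernel

theorem al_cd (a b c d e f a' b' c' d' e' f' : Bool) :
    Nat.land (cd a b c d e f) (cd a' b' c' d' e' f') =
      cd (a && a') (b && b') (c && c') (d && d') (e && e') (f && f') := by
  revert a b c d e f a' b' c' d' e' f'
  decide +kernel

theorem al_ge (a b c d e f x y z w : Bool) (h1 : (a && (x && y)) = false)
    (h2 : (b && (x && z)) = false) (h3 : (c && (x && w)) = false) (h4 : (d && (y && z)) = false)
    (h5 : (e && (y && w)) = false) (h6 : (f && (z && w)) = false) :
    x.toNat + y.toNat + z.toNat + w.toNat ≤ al (cd a b c d e f) := by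
  revert a b c d e f x y z w
  decide +kernel

/-- the five functions -/
def V (r : Fin 5) (u : ℕ) : ℤ :=
  match r with
  | 0 => (row u).2.2.1
  | 1 => (row u).2.2.2.1
  | 2 => (row u).2.2.2.2.1
  | 3 => (row u).2.2.2.2.2.1
  | 4 => (row u).2.2.2.2.2.2

theorem main (a b c d e f a' b' c' d' e' f' x y z w : Bool)
    (h1 : ((a && a') && (x && y)) = false)
    (h2 : ((b && b') && (x && z)) = false) (h3 : ((c && c') && (x && w)) = false)
    (h4 : ((d && d') && (y && z)) = false)
    (h5 : ((e && e') && (y && w)) = false) (h6 : ((f && f') && (z && w)) = false) :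
    3 * ∑ r, V r (cd a b c d e f) * V r (cd a' b' c' d' e' f') +
      30000000000 * (x.toNat + y.toNat + z.toNat + w.toNat : ℤ) ≤
    10000000 * (16716 - 1000 * ((a.toNat + b.toNat + c.toNat + d.toNat + e.toNat + f.toNat : ℤ) +
      (a'.toNat + b'.toNat + c'.toNat + d'.toNat + e'.toNat + f'.toNat))) := by
  have hp := row_mem a b c d e f
  have hq := row_mem a' b' c' d' e' f'
  have ht := test_all
  rw [List.all_eq_true] at ht
  have ht1 := ht _ hp.1
  rw [List.all_eq_true] at ht1
  have ht2 := ht1 _ hq.1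
  unfold test at ht2
  have ht3 := of_decide_eq_true ht2
  rw [hp.2.1, hq.2.1, hp.2.2, hq.2.2, al_cd] at ht3
  have h := al_ge _ _ _ _ _ _ x y z w h1 h2 h3 h4 h5 h6
  have h' : ((x.toNat + y.toNat + z.toNat + w.toNat : ℕ) : ℤ) ≤
      (al (cd (a && a') (b && b') (c && c') (d && d') (e && e') (f && f')) : ℤ) := by
    exact_mod_cast h
  rw [Fin.sum_univ_five]
  simp only [V]
  push_cast at ht3 h'
  linarith

end Pool.Agent.U319.TI.Ker
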