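import Pool.Agent.U319.TI.Two
import Pool.Agent.U319.TI.Act
import Pool.Agent.H422R3.T34.Final

/-!
# Generalized dihedral groups with two orbits
-/

set_option autoImplicit false

open Finset MulAction

namespace Pool.Agent.U319.TI

set_option linter.unusedSectionVars false
set_option linter.unnecessarySeqFocus false

variable {V Γ : Type} [Fintype V] [DecidableEq V] [Group Γ] [Fintype Γ] [MulAction Γ V]

open scoped Classical in
/-- the elements outside a subgroup -/
noncomputable def outs (N : Subgroup Γ) : Finset Γ := univ.filter fun g => g ∉ N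

lemma mem_outs {N : Subgroup Γ} {g : Γ} : g ∈ outs N ↔ g ∉ N := by simp [outs]

lemma outs_card {N : Subgroup Γ} (hN : N.index = 2) :
    (outs N).card = Nat.card N ∧ Fintype.card Γ = 2 * Nat.card N := by
  classical
  have h1 := N.card_mul_index
  rw [hN, Nat.card_eq_fintype_card (α := Γ)] at h1
  have h2 : (univ.filter fun g : Γ => g ∈ N).card = Nat.card N := by
    rw [Nat.card_eq_fintype_card]
    exact (Fintype.card_of_subtype _ fun g => by simp).symm
  have h3 := card_filter_add_card_filter_not (s := (univ : Finset Γ)) (fun g => g ∈ N)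
  have h4 : (outs N).card = (univ.filter fun g : Γ => ¬ g ∈ N).card := by
    have : outs N = univ.filter fun g : Γ => ¬ g ∈ N := by
      ext g
      rw [mem_outs, mem_filter]
      simp
    rw [this]
  rw [h2, ← h4, card_univ] at h3
  omega

theorem two_orbits (hflag : FlagBound) {G : Finset (Finset V)} (hG : Cov G)
    (hfree : ∀ (g : Γ) (x : V), g • x = x → g = 1)
    (hinv : ∀ (g : Γ), ∀ e ∈ G, e.image (fun x => g • x) ∈ G)
    (horb : Nat.card (orbitRel.Quotient Γ V) = 2) (N : Subgroup Γ) (hN : N.index = 2)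
    (hN2 : ∀ g : Γ, g ∉ N → g * g = 1) (m : ℝ) (hm : m = Nat.card N) :
    2857 / 100 * m ^ 3 - 42 * m ^ 2 + 8 * m ≤ 6 * G.card ∧ (Fintype.card V : ℝ) = 4 * m := by
  classical
  have hS1 : ∀ g ∈ outs N, g ≠ 1 ∧ g * g = 1 := by
    intro g hg
    rw [mem_outs] at hg
    exact ⟨fun h => hg (h ▸ N.one_mem), hN2 g hg⟩
  have hS2 : ∀ g ∈ outs N, ∀ h ∈ outs N, g * h * g ∈ outs N := by
    intro g hg h hh
    rw [mem_outs] at hg hh ⊢
    rw [Subgroup.mul_mem_iff_of_index_two hN, Subgroup.mul_mem_iff_of_index_two hN]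
    tauto
  have hT := perms_semi (V := V) hfree hS1 hS2
  obtain ⟨q0, q1, hq, hqu⟩ := Nat.card_eq_two_iff.1 horb
  have hq01 : ∀ q : orbitRel.Quotient Γ V, q ≠ q0 → q = q1 := by
    intro q hne
    have : q ∈ ({q0, q1} : Set (orbitRel.Quotient Γ V)) := by rw [hqu]; trivial
    rcases this with h | h
    · exact absurd h hne
    · exact h
  obtain ⟨e, he⟩ : ∃ e : orbitRel.Quotient Γ V × Γ ≃ V, ∀ p, e p = p.2 • Quotient.out p.1 :=
    ⟨Equiv.ofBijective _ (Pool.Agent.H422R3.T34.coords hfree), fun p => rfl⟩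
  obtain ⟨c, hc⟩ : ∃ c : V → Fin 4, ∀ p, c (e p) =
      if p.1 = q0 then (if p.2 ∈ N then 0 else 1) else (if p.2 ∈ N then 2 else 3) :=
    ⟨fun x => if (e.symm x).1 = q0 then (if (e.symm x).2 ∈ N then 0 else 1)
      else (if (e.symm x).2 ∈ N then 2 else 3), fun p => by simp⟩
  have hex : ∀ x y, ex (perms V (outs N)) x y = opp (c x) (c y) := by
    intro x y
    obtain ⟨⟨q, g⟩, rfl⟩ := e.surjective x
    obtain ⟨⟨q', g'⟩, rfl⟩ := e.surjective y
    rw [hc, hc]
    simp only
    rcases ex_cases hT (e (q, g)) (e (q', g')) with ⟨h, h'⟩ | ⟨h, τ, hτ, h'⟩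
    · rw [h]
      have key : ¬ (q = q' ∧ ¬ (g ∈ N ↔ g' ∈ N)) := by
        rintro ⟨rfl, hgg⟩
        have hh : g' * g⁻¹ ∉ N := by
          rw [Subgroup.mul_mem_iff_of_index_two hN, inv_mem_iff]
          tauto
        refine h' _ (mem_perms.2 ⟨g' * g⁻¹, mem_outs.2 hh, rfl⟩) ?_
        rw [MulAction.toPerm_apply, he, he]
        show (g' * g⁻¹) • g • _ = g' • _
        rw [smul_smul, mul_assoc, inv_mul_cancel, mul_one]
      by_cases a1 : q = q0 <;> by_cases a2 : q' = q0 <;> by_cases b1 : g ∈ N <;>
        by_cases b2 : g' ∈ N <;> simp only [a1, a2, b1, b2, if_true, if_false] <;>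
        first
        | (simp [opp]; done)
        | (exfalso; apply key; refine ⟨?_, by tauto⟩; first | rw [a1, a2] | rw [hq01 q a1, hq01 q' a2])
    · rw [h]
      obtain ⟨s, hs, rfl⟩ := mem_perms.1 hτ
      rw [mem_outs] at hs
      rw [MulAction.toPerm_apply, he, he] at h'
      have h2 : e (q, s * g) = e (q', g') := by
        rw [he, he]
        show (s * g) • _ = g' • _
        rw [mul_smul]
        exact h'
      have h3 := e.injective h2
      obtain ⟨rfl, rfl⟩ := Prod.mk.inj h3
      have h4 : s * g ∈ N ↔ ¬ g ∈ N := by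
        rw [Subgroup.mul_mem_iff_of_index_two hN]
        tauto
      by_cases a1 : q = q0 <;> by_cases b1 : g ∈ N <;> simp [a1, b1, h4, opp]
  have hcl : ∀ i, ∑ x, cl c i x = m := by
    intro i
    have o1 := (outs_card hN).1
    have o2 : (univ.filter fun g : Γ => g ∈ N).card = Nat.card N := by
      rw [Nat.card_eq_fintype_card]
      exact (Fintype.card_of_subtype _ fun g => by simp).symm
    have o3 : (univ.filter fun g : Γ => ¬ g ∈ N).card = Nat.card N := by
      rw [← o1]
      have : outs N = univ.filter fun g : Γ => ¬ g ∈ N := by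
        ext g
        rw [mem_outs, mem_filter]
        simp
      rw [this]
    have huq : (univ : Finset (orbitRel.Quotient Γ V)) = {q0, q1} := by
      ext q
      simp only [mem_univ, mem_insert, mem_singleton, true_iff]
      by_cases h : q = q0
      · left; exact h
      · right; exact hq01 q h
    have s1 : ∑ g : Γ, (if g ∈ N then (1 : ℝ) else 0) = m := by
      rw [sum_boole, o2, hm]
    have s2 : ∑ g : Γ, (if g ∈ N then (0 : ℝ) else 1) = m := by
      have : ∀ g : Γ, (if g ∈ N then (0 : ℝ) else 1) = if ¬ g ∈ N then 1 else 0 := by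
        intro g
        by_cases h : g ∈ N <;> simp [h]
      rw [sum_congr rfl fun g _ => this g, sum_boole, o3, hm]
    rw [← Equiv.sum_comp e, Fintype.sum_prod_type, huq, sum_insert (by simpa using hq),
      sum_singleton]
    have t0 : ∀ g : Γ, cl c i (e (q0, g)) = if g ∈ N then (if (0 : Fin 4) = i then 1 else 0)
        else (if (1 : Fin 4) = i then 1 else 0) := by
      intro g
      unfold cl
      rw [hc]
      by_cases h : g ∈ N <;> simp [h]
    have t1 : ∀ g : Γ, cl c i (e (q1, g)) = if g ∈ N then (if (2 : Fin 4) = i then 1 else 0)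
        else (if (3 : Fin 4) = i then 1 else 0) := by
      intro g
      unfold cl
      rw [hc]
      by_cases h : g ∈ N <;> simp [h, hq.symm]
    rw [sum_congr rfl fun g _ => t0 g, sum_congr rfl fun g _ => t1 g]
    fin_cases i <;> simp [s1, s2] <;> first | exact s1 | exact s2 | skip
  have hm0 : 0 ≤ m := by rw [hm]; exact Nat.cast_nonneg _
  have h1 := two_real hflag hT (kk_trip hG) (kk_deg G) (perms_aut hinv hS1) c hcl hm0 hex
  have hn : (Fintype.card V : ℝ) = 4 * m := by
    rw [Fintype.card_congr e.symm, Fintype.card_prod, (outs_card hN).2, ← Nat.card_eq_fintype_card,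
      horb, hm]
    push_cast
    ring
  refine ⟨?_, hn⟩
  rw [kk_sum hG, hn] at h1
  nlinarith [pow_nonneg hm0 3]

end Pool.Agent.U319.TI
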