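import Pool.Agent.U319.TI.Fam

/-!
# The totals
-/

set_option autoImplicit false

open Finset

namespace Pool.Agent.U319.TI

set_option linter.unusedSectionVars false
set_option linter.unnecessarySeqFocus false

variable {V : Type} [Fintype V] [DecidableEq V] {T : Finset (Equiv.Perm V)}
  {k : V → V → V → ℝ}

lemma off_sum {x y : V} (hxy : x ≠ y) (F : V → ℝ) :
    ∑ z, F z * off x y z = ∑ z, F z - F x - F y := by
  have h1 : ∀ z, F z * off x y z = F z - (if z = x then F z else 0) - (if z = y then F z else 0) := by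
    intro z
    unfold off
    by_cases h : z = x
    · subst h
      have : z ≠ y := hxy
      simp [this]
    · by_cases h' : z = y
      · subst h'
        simp [h]
      · simp [h, h']
  simp_rw [h1]
  rw [sum_sub_distrib, sum_sub_distrib]
  simp

/-- the number of non-exchanged partners -/
noncomputable def dd (T : Finset (Equiv.Perm V)) : ℝ := (Fintype.card V : ℝ) - 1 - T.card

lemma R1 (hT : Semi T) : ∑ x, ∑ y, ∑ z, ex T x y * ((2 - ex T x z - ex T y z) * off x y z) =
    2 * (Fintype.card V) * T.card * dd T := by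
  have h1 : ∀ x y, ∑ z, ex T x y * ((2 - ex T x z - ex T y z) * off x y z) =
      ex T x y * (2 * dd T) := by
    intro x y
    rw [← mul_sum]
    rcases ex_cases hT x y with h | h
    · rw [h.1]; simp
    · obtain ⟨h, τ, hτ, rfl⟩ := h
      rw [h, one_mul, one_mul, off_sum (hT.fix τ hτ x).symm, sum_sub_distrib, sum_sub_distrib,
        ex_deg, ex_deg, ex_self hT, ex_self hT, ex_comm hT (τ x) x, h]
      unfold dd
      rw [sum_const, card_univ, nsmul_eq_mul]
      ring
  simp_rw [h1, ← sum_mul, ex_deg]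
  rw [sum_const, card_univ, nsmul_eq_mul]
  ring

lemma cyc (F : V → V → V → ℝ) : ∑ x, ∑ y, ∑ z, F y z x = ∑ x, ∑ y, ∑ z, F x y z := by
  rw [sum_comm]
  exact sum_congr rfl fun y _ => sum_comm

lemma swp (F : V → V → V → ℝ) : ∑ x, ∑ y, ∑ z, F x z y = ∑ x, ∑ y, ∑ z, F x y z :=
  sum_congr rfl fun x _ => sum_comm

/-- the triples with one or two exchanged pairs -/
theorem firstPart (hT : Semi T) (hk : Trip k) (h0 : ∀ x y, k x x y = 0)
    (haut : ∀ τ ∈ T, ∀ x y z, k (τ x) (τ y) (τ z) = k x y z) :
    2 * ∑ x, ∑ y, ∑ z, k x y z * (ex T x y + ex T x z + ex T y z - ex T x y * ex T x z -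
      ex T x y * ex T y z - ex T x z * ex T y z) ≤ 3 * (Fintype.card V) * T.card * dd T := by
  have h1 := swap hT hk h0 haut (ψ := fun x y z => 2 - ex T x z - ex T y z)
    (fun x y z => by
      show 0 ≤ 2 - ex T x z - ex T y z
      rcases ex01 hT x z with h | h <;> rcases ex01 hT y z with h' | h' <;> rw [h, h'] <;> norm_num)
    (fun τ hτ x z => by
      show 2 - ex T x z - ex T (τ x) z = 2 - ex T z x - ex T (τ z) x
      rw [ex_comm hT z x, ex_swap hT hτ x z, ex_comm hT (τ z) x])
  rw [R1 hT] at h1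
  obtain ⟨F, hF⟩ : ∃ F : V → V → V → ℝ, F = fun x y z =>
    ex T x y * ((2 - ex T x z - ex T y z) * k x y z) := ⟨_, rfl⟩
  have e1 : ∑ x, ∑ y, ∑ z, ex T x y * ((2 - ex T x z - ex T y z) * k x y z) =
      ∑ x, ∑ y, ∑ z, F x y z := by rw [hF]
  rw [e1] at h1
  have e2 := cyc F
  have e3 := swp F
  have e4 : 2 * ∑ x, ∑ y, ∑ z, k x y z * (ex T x y + ex T x z + ex T y z - ex T x y * ex T x z -
      ex T x y * ex T y z - ex T x z * ex T y z) =
      ∑ x, ∑ y, ∑ z, F x y z + ∑ x, ∑ y, ∑ z, F x z y + ∑ x, ∑ y, ∑ z, F y z x := by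
    simp_rw [mul_sum, ← sum_add_distrib]
    refine sum_congr rfl fun x _ => sum_congr rfl fun y _ => sum_congr rfl fun z _ => ?_
    rw [hF]
    show _ = ex T x y * ((2 - ex T x z - ex T y z) * k x y z) +
      ex T x z * ((2 - ex T x y - ex T z y) * k x z y) +
      ex T y z * ((2 - ex T y x - ex T z x) * k y z x)
    rw [hk.s23 x z y, ex_comm hT z y, ex_comm hT y x, ex_comm hT z x, hk.s23 y z x, hk.s12 y x z]
    ring
  rw [e4, e2, e3]
  linarith

/-- the triples with three exchanged pairs -/
theorem thirdPart (hT : Semi T) (hk : Trip k) (h0 : ∀ x y, k x x y = 0)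
    (haut : ∀ τ ∈ T, ∀ x y z, k (τ x) (τ y) (τ z) = k x y z) :
    2 * ∑ x, ∑ y, ∑ z, k x y z * (ex T x y * ex T x z * ex T y z) ≤
      ∑ x, ∑ y, ∑ z, ex T x y * (ex T x z * ex T y z * off x y z) := by
  have h1 := swap hT hk h0 haut (ψ := fun x y z => ex T x z * ex T y z)
    (fun x y z => mul_nonneg (ex_nn _ _) (ex_nn _ _))
    (fun τ hτ x z => by
      show ex T x z * ex T (τ x) z = ex T z x * ex T (τ z) x
      rw [ex_comm hT z x, ex_swap hT hτ x z, ex_comm hT (τ z) x])
  refine le_trans (le_of_eq ?_) h1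
  congr 1
  refine sum_congr rfl fun x _ => sum_congr rfl fun y _ => sum_congr rfl fun z _ => ?_
  ring

/-- the triples without exchanged pairs -/
theorem noPart (hT : Semi T) (hk : Trip k) (h0 : ∀ x y, k x x y = 0) :
    ∑ x, ∑ y, ∑ z, k x y z * ((1 - ex T x y) * (1 - ex T x z) * (1 - ex T y z)) ≤
      2 / 3 * (Fintype.card V) * (dd T) ^ 2 := by
  have c0 : ∀ x y, (1 - ex T x y = 0 ∨ 1 - ex T x y = 1) := fun x y => by
    rcases ex01 hT x y with h | h <;> rw [h] <;> norm_num
  have hk0 : Trip (fun x y z => k x y z * ((1 - ex T x y) * (1 - ex T x z) * (1 - ex T y z))) := by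
    refine ⟨?_, ?_, ?_, ?_⟩
    · intro x y z
      show k x y z * ((1 - ex T x y) * (1 - ex T x z) * (1 - ex T y z)) =
        k y x z * ((1 - ex T y x) * (1 - ex T y z) * (1 - ex T x z))
      rw [hk.s12, ex_comm hT y x]; ring
    · intro x y z
      show k x y z * ((1 - ex T x y) * (1 - ex T x z) * (1 - ex T y z)) =
        k x z y * ((1 - ex T x z) * (1 - ex T x y) * (1 - ex T z y))
      rw [hk.s23, ex_comm hT z y]; ring
    · intro x y z
      show k x y z * ((1 - ex T x y) * (1 - ex T x z) * (1 - ex T y z)) = 0 ∨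
        k x y z * ((1 - ex T x y) * (1 - ex T x z) * (1 - ex T y z)) = 1
      rcases hk.h01 x y z with h | h <;> rcases c0 x y with h1 | h1 <;>
        rcases c0 x z with h2 | h2 <;> rcases c0 y z with h3 | h3 <;> rw [h, h1, h2, h3] <;>
        norm_num
    · intro x y z w
      rcases hk.free x y z w with h | h | h | h
      · left
        show k x y z * _ = 0
        rw [h, zero_mul]
      · right; left
        show k x y w * _ = 0
        rw [h, zero_mul]
      · right; right; left
        show k x z w * _ = 0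
        rw [h, zero_mul]
      · right; right; right
        show k y z w * _ = 0
        rw [h, zero_mul]
  refine decaen hk0 (f := fun x y => if x = y then 0 else 1 - ex T x y) ?_ ?_ ?_
  · intro x y
    show (if x = y then (0 : ℝ) else 1 - ex T x y) = 0 ∨ (if x = y then (0 : ℝ) else 1 - ex T x y) = 1
    split_ifs
    · left; rfl
    · exact c0 x y
  · intro x
    show ∑ y, (if x = y then (0 : ℝ) else 1 - ex T x y) = dd T
    have h1 : ∀ y, (if x = y then (0 : ℝ) else 1 - ex T x y) =
        1 - ex T x y - (if x = y then 1 else 0) := by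
      intro y
      split_ifs with h
      · subst h; rw [ex_self hT]; norm_num
      · ring
    simp_rw [h1]
    rw [sum_sub_distrib, sum_sub_distrib, ex_deg]
    unfold dd
    simp
    ring
  · intro x y z
    show k x y z * ((1 - ex T x y) * (1 - ex T x z) * (1 - ex T y z)) ≤
      (if x = y then (0 : ℝ) else 1 - ex T x y)
    split_ifs with h
    · subst h; rw [h0]; simp
    · rcases hk.h01 x y z with h | h <;> rcases c0 x y with h1 | h1 <;>
        rcases c0 x z with h2 | h2 <;> rcases c0 y z with h3 | h3 <;> rw [h, h1, h2, h3] <;>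
        norm_num

lemma decomp : ∑ x, ∑ y, ∑ z, k x y z =
    ∑ x, ∑ y, ∑ z, k x y z * (ex T x y + ex T x z + ex T y z - ex T x y * ex T x z -
      ex T x y * ex T y z - ex T x z * ex T y z) +
    ∑ x, ∑ y, ∑ z, k x y z * (ex T x y * ex T x z * ex T y z) +
    ∑ x, ∑ y, ∑ z, k x y z * ((1 - ex T x y) * (1 - ex T x z) * (1 - ex T y z)) := by
  simp_rw [← sum_add_distrib]
  refine sum_congr rfl fun x _ => sum_congr rfl fun y _ => sum_congr rfl fun z _ => ?_
  ring

/-- the number of the triples with no or three exchanged pairs -/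
lemma goodman (hT : Semi T) :
    ∑ x, ∑ y, ∑ z, ex T x y * (ex T x z * ex T y z * off x y z) +
    ∑ x, ∑ y, ∑ z, (if x = y then 0 else off x y z) *
      ((1 - ex T x y) * (1 - ex T x z) * (1 - ex T y z)) =
    (Fintype.card V) * ((Fintype.card V) - 1) * ((Fintype.card V) - 2) -
      3 * (Fintype.card V) * T.card * dd T := by
  have h1 : ∀ x y, ∑ z, ex T x y * (ex T x z * ex T y z * off x y z) +
      ∑ z, (if x = y then 0 else off x y z) *
        ((1 - ex T x y) * (1 - ex T x z) * (1 - ex T y z)) =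
      (if x = y then 0 else 1) * ((1 - ex T x y) * ((Fintype.card V) - 2 - 2 * T.card)) +
        (∑ z, ex T x z * ex T y z - if x = y then (T.card : ℝ) else 0) := by
    intro x y
    by_cases h : x = y
    · subst h
      simp only [if_true, zero_mul, sum_const_zero, add_zero, zero_add]
      rw [ex_self hT]
      simp only [zero_mul, sum_const_zero]
      have : ∑ z, ex T x z * ex T x z = T.card := by
        rw [← ex_deg x]
        refine sum_congr rfl fun z _ => ?_
        rcases ex01 hT x z with h | h <;> rw [h] <;> norm_num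
      rw [this]; ring
    · simp only [if_neg h]
      rw [← sum_add_distrib]
      have e1 : ∀ z, ex T x y * (ex T x z * ex T y z * off x y z) +
          off x y z * ((1 - ex T x y) * (1 - ex T x z) * (1 - ex T y z)) =
          (1 - ex T x y - (1 - ex T x y) * ex T x z - (1 - ex T x y) * ex T y z +
            ex T x z * ex T y z) * off x y z := by
        intro z; ring
      simp_rw [e1]
      rw [off_sum h]
      rw [sum_add_distrib, sum_sub_distrib, sum_sub_distrib, ← mul_sum, ← mul_sum, ex_deg, ex_deg,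
        ex_self hT, ex_self hT, ex_comm hT y x, sum_const, card_univ, nsmul_eq_mul]
      rcases ex01 hT x y with h' | h' <;> rw [h'] <;> ring
  have h2 : ∑ x, ∑ y, ∑ z, ex T x y * (ex T x z * ex T y z * off x y z) +
      ∑ x, ∑ y, ∑ z, (if x = y then 0 else off x y z) *
      ((1 - ex T x y) * (1 - ex T x z) * (1 - ex T y z)) =
      ∑ x, ∑ y, (∑ z, ex T x y * (ex T x z * ex T y z * off x y z) +
      ∑ z, (if x = y then 0 else off x y z) *
      ((1 - ex T x y) * (1 - ex T x z) * (1 - ex T y z))) := by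
    rw [← sum_add_distrib]
    refine sum_congr rfl fun x _ => ?_
    rw [← sum_add_distrib]
  rw [h2]
  simp_rw [h1]
  have h3 : ∑ x : V, ∑ y : V, (if x = y then (0 : ℝ) else 1) *
      ((1 - ex T x y) * ((Fintype.card V) - 2 - 2 * T.card)) =
      (Fintype.card V) * dd T * ((Fintype.card V) - 2 - 2 * T.card) := by
    have h4 : ∀ x : V, ∑ y : V, (if x = y then (0 : ℝ) else 1) *
        ((1 - ex T x y) * ((Fintype.card V) - 2 - 2 * T.card)) =
        dd T * ((Fintype.card V) - 2 - 2 * T.card) := by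
      intro x
      have h5 : ∀ y, (if x = y then (0 : ℝ) else 1) *
          ((1 - ex T x y) * ((Fintype.card V) - 2 - 2 * T.card)) =
          (1 - ex T x y - (if x = y then 1 else 0)) * ((Fintype.card V) - 2 - 2 * T.card) := by
        intro y
        split_ifs with h
        · subst h; rw [ex_self hT]; ring
        · ring
      simp_rw [h5]
      rw [← sum_mul, sum_sub_distrib, sum_sub_distrib, ex_deg]
      unfold dd
      simp
      left; ring
    simp_rw [h4]
    rw [sum_const, card_univ, nsmul_eq_mul]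
    ring
  have h4 : ∑ x : V, ∑ y : V, ((∑ z, ex T x z * ex T y z) - if x = y then (T.card : ℝ) else 0) =
      (Fintype.card V) * T.card * (T.card - 1) := by
    have h5 : ∑ x : V, ∑ y : V, ∑ z, ex T x z * ex T y z = (Fintype.card V) * T.card * T.card := by
      have h6 : ∀ x : V, ∑ y : V, ∑ z, ex T x z * ex T y z = T.card * T.card := by
        intro x
        rw [sum_comm]
        simp_rw [← mul_sum]
        have h7 : ∀ z, ∑ y, ex T y z = T.card := by
          intro z
          rw [← ex_deg z]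
          exact sum_congr rfl fun y _ => ex_comm hT y z
        simp_rw [h7]
        rw [← sum_mul, ex_deg]
      simp_rw [h6]
      rw [sum_const, card_univ, nsmul_eq_mul]
      ring
    simp_rw [sum_sub_distrib]
    rw [h5]
    simp
    ring
  have h7 : ∀ F G : V → V → ℝ, ∑ x, ∑ y, (F x y + G x y) = ∑ x, ∑ y, F x y + ∑ x, ∑ y, G x y := by
    intro F G
    rw [← sum_add_distrib]
    exact sum_congr rfl fun x _ => sum_add_distrib
  rw [h7, h3, h4]
  unfold dd
  ring

/-- general families -/
theorem general (hT : Semi T) (hk : Trip k) (h0 : ∀ x y, k x x y = 0)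
    (haut : ∀ τ ∈ T, ∀ x y z, k (τ x) (τ y) (τ z) = k x y z) :
    6 * ∑ x, ∑ y, ∑ z, k x y z ≤
      3 * ((Fintype.card V) * ((Fintype.card V) - 1) * ((Fintype.card V) - 2)) +
        2 * (Fintype.card V) * (dd T) ^ 2 := by
  have h1 := firstPart hT hk h0 haut
  have h2 := thirdPart hT hk h0 haut
  have h3 := noPart hT hk h0
  have h4 := goodman hT
  have h5 := decomp (T := T) (k := k)
  have h6 : ∑ x, ∑ y, ∑ z, k x y z * ((1 - ex T x y) * (1 - ex T x z) * (1 - ex T y z)) ≤
      ∑ x, ∑ y, ∑ z, (if x = y then 0 else off x y z) *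
      ((1 - ex T x y) * (1 - ex T x z) * (1 - ex T y z)) := by
    refine sum_le_sum fun x _ => sum_le_sum fun y _ => sum_le_sum fun z _ => ?_
    have c0 : ∀ x y, 0 ≤ 1 - ex T x y := fun x y => by
      rcases ex01 hT x y with h | h <;> rw [h] <;> norm_num
    refine mul_le_mul_of_nonneg_right ?_ (mul_nonneg (mul_nonneg (c0 _ _) (c0 _ _)) (c0 _ _))
    obtain ⟨g1, g2⟩ := hk.degen h0
    unfold off
    split_ifs with h h'
    · rw [h, h0]
    · rcases h' with rfl | rfl
      · rw [g1]
      · rw [g2]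
    · exact hk.le1 x y z
  linarith

/-- families inside a group which acts freely -/
theorem free (hT : Semi T) (hk : Trip k) (h0 : ∀ x y, k x x y = 0)
    (haut : ∀ τ ∈ T, ∀ x y z, k (τ x) (τ y) (τ z) = k x y z)
    (hcomp : ∀ τ₁ ∈ T, ∀ τ₂ ∈ T, ∀ τ₃ ∈ T, ∀ x, τ₃ (τ₂ (τ₁ x)) = x → ∀ y, τ₃ (τ₂ (τ₁ y)) = y) :
    6 * ∑ x, ∑ y, ∑ z, k x y z ≤
      9 * ((Fintype.card V) * T.card * dd T) + 4 * (Fintype.card V) * (dd T) ^ 2 := by
  have h1 := firstPart hT hk h0 haut
  have h3 := noPart hT hk h0
  have h5 := decomp (T := T) (k := k)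
  have h6 : ∑ x, ∑ y, ∑ z, k x y z * (ex T x y * ex T x z * ex T y z) = 0 := by
    refine sum_eq_zero fun x _ => sum_eq_zero fun y _ => sum_eq_zero fun z _ => ?_
    rcases ex_cases hT x y with h | ⟨-, τ₁, m1, hy⟩
    · rw [h.1]; ring
    rcases ex_cases hT y z with h | ⟨-, τ₂, m2, hz⟩
    · rw [h.1]; ring
    rcases ex_cases hT x z with h | ⟨-, τ₃, m3, hz'⟩
    · rw [h.1]; ring
    have i1 := hT.inv τ₁ m1
    have i2 := hT.inv τ₂ m2
    have i3 := hT.inv τ₃ m3
    have c : ∀ y, τ₃ (τ₂ (τ₁ y)) = y := by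
      apply hcomp τ₁ m1 τ₂ m2 τ₃ m3 x
      rw [hy, hz, ← hz', i3]
    -- the fourth point
    have u1 : τ₁ z = τ₂ x := by
      have := c (τ₁ (τ₂ x))
      rw [i1, i2, hz'] at this
      rw [this, i1]
    have u2 : τ₁ y = x := by rw [← hy, i1]
    have u3 : τ₂ z = y := by rw [← hz, i2]
    have u4 : τ₃ z = x := by rw [← hz', i3]
    have u5 : τ₃ y = τ₂ x := by
      have := c (τ₂ x)
      rw [← u1, i1, u3] at this
      rw [this, u1]
    have w1 : k x y (τ₂ x) = k x y z := by
      rw [← haut τ₁ m1 x y z, hy, u2, u1, hk.s12]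
    have w2 : k y z (τ₂ x) = k x y z := by
      rw [← haut τ₂ m2 x y z, hz, u3, hk.s12 (τ₂ x) z y, hk.s23 z (τ₂ x) y, hk.s12 z y]
    have w3 : k x z (τ₂ x) = k x y z := by
      rw [← haut τ₃ m3 x y z, hz', u5, u4, hk.s23 z (τ₂ x) x, hk.s12 z x]
    have h := hk.free x y z (τ₂ x)
    rw [w1, w2, w3] at h
    have : k x y z = 0 := by tauto
    rw [this]; ring
  rw [h6] at h5
  linarith

end Pool.Agent.U319.TI
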