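import Pool.Agent.U319.TI.Cross2

/-!
# Two orbits
-/

set_option autoImplicit false

open Finset

namespace Pool.Agent.U319.TI

set_option linter.unusedSectionVars false
set_option linter.unnecessarySeqFocus false

variable {V : Type} [Fintype V] [DecidableEq V] {T : Finset (Equiv.Perm V)}
  {k : V → V → V → ℝ}

lemma opp01 (i j : Fin 4) : opp i j = 0 ∨ opp i j = 1 := by
  unfold opp; split_ifs
  · right; rfl
  · left; rfl

lemma opp_three (i j l : Fin 4) : opp i j * opp i l * opp j l = 0 := by
  unfold opp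
  fin_cases i <;> fin_cases j <;> fin_cases l <;> simp

/-- the kinds of triples without exchanged pair -/
lemma opp_none (i j l : Fin 4) (κ : ℝ) (hκ : 0 ≤ κ) :
    κ * ((1 - opp i j) * (1 - opp i l) * (1 - opp j l)) ≤
      (if (i = 0 ∨ i = 2) ∧ (j = 0 ∨ j = 2) ∧ (l = 0 ∨ l = 2) then κ else 0) +
      (if (i = 1 ∨ i = 3) ∧ (j = 1 ∨ j = 3) ∧ (l = 1 ∨ l = 3) then κ else 0) +
      κ * ((if i = 0 then 1 else 0) * (if j = 0 then 1 else 0) * (if l = 3 then 1 else 0) +
        (if i = 0 then 1 else 0) * (if l = 0 then 1 else 0) * (if j = 3 then 1 else 0) +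
        (if j = 0 then 1 else 0) * (if l = 0 then 1 else 0) * (if i = 3 then 1 else 0) +
        ((if i = 3 then 1 else 0) * (if j = 3 then 1 else 0) * (if l = 0 then 1 else 0) +
        (if i = 3 then 1 else 0) * (if l = 3 then 1 else 0) * (if j = 0 then 1 else 0) +
        (if j = 3 then 1 else 0) * (if l = 3 then 1 else 0) * (if i = 0 then 1 else 0))) +
      κ * ((if i = 1 then 1 else 0) * (if j = 1 then 1 else 0) * (if l = 2 then 1 else 0) +
        (if i = 1 then 1 else 0) * (if l = 1 then 1 else 0) * (if j = 2 then 1 else 0) +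
        (if j = 1 then 1 else 0) * (if l = 1 then 1 else 0) * (if i = 2 then 1 else 0) +
        ((if i = 2 then 1 else 0) * (if j = 2 then 1 else 0) * (if l = 1 then 1 else 0) +
        (if i = 2 then 1 else 0) * (if l = 2 then 1 else 0) * (if j = 1 then 1 else 0) +
        (if j = 2 then 1 else 0) * (if l = 2 then 1 else 0) * (if i = 1 then 1 else 0))) := by
  unfold opp
  fin_cases i <;> fin_cases j <;> fin_cases l <;> simp <;> linarith

theorem two_real (hflag : FlagBound) (hT : Semi T) (hk : Trip k) (h0 : ∀ x y, k x x y = 0)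
    (haut : ∀ τ ∈ T, ∀ x y z, k (τ x) (τ y) (τ z) = k x y z) (c : V → Fin 4) {m : ℝ}
    (hm : ∀ i, ∑ x, cl c i x = m) (hm0 : 0 ≤ m) (hex : ∀ x y, ex T x y = opp (c x) (c y)) :
    ∑ x, ∑ y, ∑ z, k x y z ≤ 3543 / 100 * m ^ 3 - 6 * m ^ 2 := by
  have hn : (Fintype.card V : ℝ) = 4 * m := by
    have h1 : ∀ x : V, (1 : ℝ) = cl c 0 x + cl c 1 x + cl c 2 x + cl c 3 x := by
      intro x
      unfold cl
      generalize c x = i
      fin_cases i <;> simp
    have h2 : ∑ _x : V, (1 : ℝ) = 4 * m := by
      rw [sum_congr rfl fun x _ => h1 x, sum_add_distrib, sum_add_distrib, sum_add_distrib, hm, hm,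
        hm, hm]
      ring
    rw [← h2]
    simp
  have h1 := firstPart hT hk h0 haut
  have h2 : ∑ x, ∑ y, ∑ z, k x y z * (ex T x y * ex T x z * ex T y z) = 0 := by
    refine sum_eq_zero fun x _ => sum_eq_zero fun y _ => sum_eq_zero fun z _ => ?_
    rw [hex, hex, hex, opp_three, mul_zero]
  have h3 : (Fintype.card V : ℝ) * T.card * dd T = 4 * m * m * (3 * m - 1) := by
    rcases isEmpty_or_nonempty V with hV | ⟨⟨x⟩⟩
    · have e : (Fintype.card V : ℝ) = 0 := by rw [Fintype.card_eq_zero]; simp
      have e' : m = 0 := by rw [e] at hn; linarith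
      rw [e, e']; ring
    · have h4 : (T.card : ℝ) = m := by
        rw [← ex_deg x]
        have h5 : ∀ y, ex T x y = cl c (if c x = 0 then 1 else if c x = 1 then 0 else
            if c x = 2 then 3 else 2) y := by
          intro y
          rw [hex]
          unfold cl opp
          generalize c x = i
          generalize c y = j
          fin_cases i <;> fin_cases j <;> simp
        simp_rw [h5]
        exact hm _
      unfold dd
      rw [h4, hn]
      ring
  have h4 : ∑ x, ∑ y, ∑ z, k x y z * ((1 - ex T x y) * (1 - ex T x z) * (1 - ex T y z)) ≤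
      1743 / 100 * m ^ 3 := by
    have f1 := flag_sub hflag hk (fun x => c x = 0 ∨ c x = 2)
    have f2 := flag_sub hflag hk (fun x => c x = 1 ∨ c x = 3)
    have g1 : ((univ.filter fun x => c x = 0 ∨ c x = 2).card : ℝ) = 2 * m := by
      rw [card_filter]
      push_cast
      have : ∀ x : V, (if c x = 0 ∨ c x = 2 then (1 : ℝ) else 0) = cl c 0 x + cl c 2 x := by
        intro x
        unfold cl
        generalize c x = i
        fin_cases i <;> simp
      rw [sum_congr rfl fun x _ => this x, sum_add_distrib, hm, hm]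
      ring
    have g2 : ((univ.filter fun x => c x = 1 ∨ c x = 3).card : ℝ) = 2 * m := by
      rw [card_filter]
      push_cast
      have : ∀ x : V, (if c x = 1 ∨ c x = 3 then (1 : ℝ) else 0) = cl c 1 x + cl c 3 x := by
        intro x
        unfold cl
        generalize c x = i
        fin_cases i <;> simp
      rw [sum_congr rfl fun x _ => this x, sum_add_distrib, hm, hm]
      ring
    rw [g1] at f1
    rw [g2] at f2
    have c1 := cross2 hk (cl01 c 0) (cl01 c 3) (hm 0) (hm 3) hm0
    have c2 := cross2 hk (cl01 c 1) (cl01 c 2) (hm 1) (hm 2) hm0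
    have m1 := sum_mixed hk c 0 3
    have m2 := sum_mixed hk c 1 2
    have key : ∑ x, ∑ y, ∑ z, k x y z * ((1 - ex T x y) * (1 - ex T x z) * (1 - ex T y z)) ≤
        ∑ x, ∑ y, ∑ z, (if (c x = 0 ∨ c x = 2) ∧ (c y = 0 ∨ c y = 2) ∧ (c z = 0 ∨ c z = 2) then
          k x y z else 0) +
        ∑ x, ∑ y, ∑ z, (if (c x = 1 ∨ c x = 3) ∧ (c y = 1 ∨ c y = 3) ∧ (c z = 1 ∨ c z = 3) then
          k x y z else 0) +
        ∑ x, ∑ y, ∑ z, k x y z * mixed c 0 3 x y z + ∑ x, ∑ y, ∑ z, k x y z * mixed c 1 2 x y z := by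
      simp_rw [← sum_add_distrib]
      refine sum_le_sum fun x _ => sum_le_sum fun y _ => sum_le_sum fun z _ => ?_
      rw [hex, hex, hex]
      exact opp_none (c x) (c y) (c z) (k x y z) (hk.nn x y z)
    rw [m1, m2] at key
    have e1 : (2 * m) ^ 3 = 8 * m ^ 3 := by ring
    rw [e1] at f1 f2
    linarith
  rw [decomp (T := T) (k := k), h2]
  have h5 : 3 * (Fintype.card V : ℝ) * T.card * dd T = 3 * (4 * m * m * (3 * m - 1)) := by
    rw [← h3]; ring
  rw [h5] at h1
  nlinarith

end Pool.Agent.U319.TI
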